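import Pool.Agent.Lib_helper32.G5.S1b

/-!
# MP_022ed3_co, triangular hull, module S1: steps 11 and 12
-/

set_option autoImplicit false

namespace Pool.Agent.G5.S1

open Pool.Agent.G5.Lower Pool.Agent.G5.Planar Pool.Agent.G5.Core Pool.Agent.G5.Frame
open Pool.Agent.G5.Coord

section

variable {s : ℝ} {m : ℕ} {P T B C : Finset (ℝ × ℝ)} {a b c v L R tau hh : ℝ × ℝ}
  {al be ga : ℝ × ℝ → ℝ} {t u x y z x0 : ℝ × ℝ}

/-- step 11 -/
lemma S1D.choice (h : S1D s m P T B C a b c v L R tau hh al be ga) :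
    ∃ u ∈ T, C.card ≤ rk T al u ∧ rk T al u ≤ C.card + 1 ∧
      (∃ x0 ∈ C, x0 ≠ c ∧ ExtP (Rs T C a al u) x0 ∧ ga x0 < ga u) ∧
      (∃ t ∈ T, al t < al u ∧ be t < be u) ∧ (∃ t ∈ T, al u < al t ∧ be t < be u ∧ ga t < ga u) := by
  have hq := h.q2
  have hr2 := h.r2
  have hrq := h.rq
  have iL := h.inT h.LT
  have iR := h.inT h.RT
  have iv := h.inT h.vT
  -- getting `x0` from a point of `Rs u` with small `ga`
  have key : ∀ u ∈ T, C.card ≤ rk T al u → rk T al u ≤ C.card + 1 → ∀ w ∈ T, al u < al w →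
      ga w < ga u → ∃ x0 ∈ C, x0 ≠ c ∧ ExtP (Rs T C a al u) x0 ∧ ga x0 < ga u := by
    intro u hu h1 h2 w hw hal hga
    obtain ⟨x0, hx0, hx0c, hx0m, hx0e, hor⟩ := h.ex0 hu h1 h2
    have e1 := hx0m w (mem_Rs.2 (Or.inr (Or.inr ⟨hw, hal.le⟩))) (h.inT hw).nc
    rcases hor with rfl | hor
    · linarith
    · exact ⟨x0, hor, hx0c, hx0e, by linarith⟩
  rcases le_or_gt (rk T al L) C.card with hp | hp
  · obtain ⟨u, hu, hru⟩ := h.exists_rk (k := C.card + 1) (by omega) (by omega)
    have iu := h.inT hu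
    have hLu : al L < al u := al_lt_of_rk (T := T) (by omega)
    have hneLu : L ≠ u := by rintro rfl; exact lt_irrefl _ hLu
    have hRu : u ≠ R := by
      rintro rfl
      have := h.rkR
      omega
    have hbeL : be L < be u :=
      h.cr.be_lt' iL.mem iu.mem iL.nb iu.nb hneLu (h.low hu (by omega))
    have hgaL : ga L < ga u := h.cr.ceva_ga iL iu hLu hbeL
    have halR : al u < al R := h.cr.al_lt' iu.mem iR.mem iu.na iR.na hRu (h.d1 u hu).2
    have hgaR : ga R < ga u := by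
      by_contra hcon
      have h3 := h.cr.ga_lt' iu.mem iR.mem iu.nc iR.nc hRu (not_lt.1 hcon)
      have h4 := h.T3 hu (by omega) (by omega) h.LT hLu hbeL hgaL iR.mem iR.nc h3
      have h5 := h.d2 u hu hneLu.symm hRu
      rw [D_swap'] at h5
      linarith
    have hbeR : be R < be u := h.cr.ceva_be iu iR halR hgaR
    exact ⟨u, hu, by omega, by omega, key u hu (by omega) (by omega) R h.RT halR hgaR,
      ⟨L, h.LT, hLu, hbeL⟩, ⟨R, h.RT, halR, hbeR, hgaR⟩⟩
  · obtain ⟨u, hu, hru⟩ := h.exists_rk (k := C.card) (by omega) (by omega)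
    have iu := h.inT hu
    have huL : al u < al L := al_lt_of_rk (T := T) (by omega)
    have hneLu : L ≠ u := by rintro rfl; exact lt_irrefl _ huL
    have hrv := h.rkv
    have hvL : v ≠ L := by rintro rfl; omega
    have hvu : al v < al u := al_lt_of_rk (T := T) (by omega)
    have hnevu : v ≠ u := by rintro rfl; exact lt_irrefl _ hvu
    obtain ⟨d3a, d3b⟩ := h.d3.resolve_left hvL
    have hpos := d3b u hu hnevu.symm hneLu.symm
    have hbeL : be L < be u :=
      h.cr.be_lt' iL.mem iu.mem iL.nb iu.nb hneLu (h.low hu (by omega))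
    have hLR := h.LR
    have halLR : al L < al R := h.cr.al_lt' iL.mem iR.mem iL.na iR.na hLR (h.d1 L h.LT).2
    have hRu : u ≠ R := by rintro rfl; linarith
    have hgaL : ga L < ga u := by
      by_contra hcon
      have h3 := h.cr.ga_lt' iu.mem iL.mem iu.nc iL.nc hneLu.symm (not_lt.1 hcon)
      rcases lt_or_ge (be v) (be u) with h4 | h4
      · have h5 := h.T3 hu (by omega) (by omega) h.vT hvu h4 (h.cr.ceva_ga iv iu hvu h4) iL.mem
          iL.nc h3
        rw [D_swap'] at h5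
        linarith
      · have h4' := h.cr.be_lt' iu.mem iv.mem iu.nb iv.nb hnevu.symm h4
        have rb := h.cr.rb iu.mem iL.mem iu.nb iL.nb hbeL
        have rc := h.cr.rc iu.mem iL.mem iu.nc iL.nc h3
        have la := h.cr.la iu.mem iL.mem iu.na iL.na huL
        have rv : D s u L v < 0 := by rw [D_swap13]; linarith
        have lR : 0 < D s u L R := by
          have := h.d2 u hu hneLu.symm hRu
          rwa [D_cyc] at this
        have hsides := sides_card h.cr.cf iu.mem iL.mem hneLu.symm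
        have hPc := h.card
        have hbm : b ∈ Rt s P u L := mem_Rt.2 ⟨h.cr.cf.hb, rb.le⟩
        have hcm : c ∈ Rt s P u L := mem_Rt.2 ⟨h.cr.cf.hc, rc.le⟩
        have hvm : v ∈ Rt s P u L := mem_Rt.2 ⟨iv.mem, rv.le⟩
        have hlight : (Rt s P u L).card ≤ m := by
          by_contra hc
          obtain ⟨z1, hz1, hz1b, hz1m, hz1e⟩ := h.cr.be_max Rt_sub hvm iv.nb
          have e1 := hz1m v hvm iv.nb
          have e2 := h.cr.be_c iL.mem iL.nb iL.nc
          exact h.thin.five Rt_sub (by omega) (ext_b h.cr.cf Rt_sub hbm)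
            (ext_c h.cr.cf Rt_sub hcm) (Rt_p h.cr.cf iu.mem iL.mem hneLu.symm)
            (Rt_q h.cr.cf iu.mem iL.mem hneLu.symm) hz1e
            (nd5 h.cr.cf.bc iu.nb.symm iL.nb.symm hz1b.symm iu.nc.symm iL.nc.symm
              (by rintro rfl; linarith) hneLu.symm (by rintro rfl; linarith)
              (by rintro rfl; linarith))
        have ham : a ∈ Lf s P u L := mem_Lf.2 ⟨h.cr.cf.ha, la.le⟩
        have hRm : R ∈ Lf s P u L := mem_Lf.2 ⟨iR.mem, lR.le⟩
        obtain ⟨z1, hz1, hz1a, hz1m, hz1e⟩ := h.cr.al_max Lf_sub hRm iR.na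
        obtain ⟨z0, hz0, hz0a, hz0m, hz0e⟩ := h.cr.al_min Lf_sub hRm iR.na
        have e1 := hz1m R hRm iR.na
        have hz0u : z0 = u := by
          by_contra hne
          have hum : u ∈ Lf s P u L := mem_Lf.2 ⟨iu.mem, by simp⟩
          have e2 := h.cr.al_lt' (Lf_sub hz0) iu.mem hz0a iu.na hne (hz0m u hum iu.na)
          exact h.thin.five Lf_sub (by omega) (ext_a h.cr.cf Lf_sub ham)
            (Lf_p h.cr.cf iu.mem iL.mem hneLu.symm) (Lf_q h.cr.cf iu.mem iL.mem hneLu.symm)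
            hz0e hz1e
            (nd5 iu.na.symm iL.na.symm hz0a.symm hz1a.symm hneLu.symm (Ne.symm hne)
              (by rintro rfl; linarith) (by rintro rfl; linarith) (by rintro rfl; linarith)
              (by rintro rfl; linarith))
        have hsub : Lf s P u L ⊆ Rs T C a al u := by
          intro w hw
          by_cases hwa : w = a
          · exact mem_Rs.2 (Or.inl hwa)
          have e3 := hz0m w hw hwa
          rw [hz0u] at e3
          rcases h.cover w (Lf_sub hw) with k | k | k | k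
          · exact absurd k hwa
          · exact mem_Rs.2 (Or.inr (Or.inr ⟨k, e3⟩))
          · have := (h.B1 w k u hu).1
            linarith
          · exact mem_Rs.2 (Or.inr (Or.inl k))
        have h6 := Finset.card_le_card hsub
        have h7 := h.Rs_card hu
        omega
    have hx := key u hu (by omega) (by omega) L h.LT huL hgaL
    obtain ⟨x0, hx0, hx0c, hx0e, hx0g⟩ := hx
    have hbev : be v < be u := by
      by_contra hcon
      have h3 := h.cr.be_lt' iu.mem iv.mem iu.nb iv.nb hnevu.symm (not_lt.1 hcon)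
      have h4 := h.T4 hu (by omega) (by omega) hx0 hx0c hx0e hx0g h.LT huL hbeL hgaL iv.mem
        iv.nb h3
      have h5 := D_cyc s v L u
      linarith
    exact ⟨u, hu, by omega, by omega, ⟨x0, hx0, hx0c, hx0e, hx0g⟩, ⟨v, h.vT, hvu, hbev⟩,
      ⟨L, h.LT, huL, hbeL, hgaL⟩⟩

/-- step 12 -/
lemma S1D.false (h : S1D s m P T B C a b c v L R tau hh al be ga) : False := by
  obtain ⟨u, hu, h1, h2, ⟨x0, hx0, hx0c, hx0e, hx0g⟩, ⟨q3, hq3, q3a, q3b⟩, ⟨q4, hq4, q4a, q4b, q4g⟩⟩ :=
    h.choice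
  obtain ⟨y0, hy0B, hy0b, hy0⟩ := h.ey0 hu h1 h2
  have iu := h.inT hu
  have hq := h.q2
  have hr2 := h.r2
  have hrq := h.rq
  have hPc := h.card
  have q3g : ga q3 < ga u := h.cr.ceva_ga (h.inT hq3) iu q3a q3b
  -- no points in `N5(u)`, `N2(u)`
  have no5 : ∀ z, In P a b c z → be z < be u → ga u < ga z → False := by
    intro z hz hb hg
    have e1 := h.T3 hu h1 h2 hq3 q3a q3b q3g hz.mem hz.nc hg
    have e2 := h.cr.sec35 iu (h.inT hq3) hz q3b q3g hb hg
    rw [D_swap] at e2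
    linarith
  have no2 : ∀ z, In P a b c z → be u < be z → ga z < ga u → False := by
    intro z hz hb hg
    have e1 := h.T4 hu h1 h2 hx0 hx0c hx0e hx0g hq4 q4a q4b q4g hz.mem hz.nb hb
    have e2 := h.cr.sec24 iu hz (h.inT hq4) hb hg q4b q4g
    rw [D_cyc'] at e1
    linarith
  -- sectors of points with `be < be u`
  have gaT : ∀ t ∈ T, be t < be u → ga t < ga u := by
    intro t ht hb
    have it := h.inT ht
    by_contra hc
    have hne : u ≠ t := by rintro rfl; exact lt_irrefl _ hb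
    exact no5 t it hb (h.cr.ga_lt' iu.mem it.mem iu.nc it.nc hne (not_lt.1 hc))
  have gaT' : ∀ t ∈ T, be u < be t → ga u < ga t := by
    intro t ht hb
    have it := h.inT ht
    by_contra hc
    have hne : t ≠ u := by rintro rfl; exact lt_irrefl _ hb
    exact no2 t it hb (h.cr.ga_lt' it.mem iu.mem it.nc iu.nc hne (not_lt.1 hc))
  have gaC : ∀ y ∈ C, y ≠ c → ga y < ga u := by
    intro y hy hyc
    have iy := h.inC hy hyc
    by_contra hc
    have hne : u ≠ y := by rintro rfl; exact h.CT hy hu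
    exact no5 y iy (h.C1 y hy u hu).2 (h.cr.ga_lt' iu.mem iy.mem iu.nc iy.nc hne (not_lt.1 hc))
  have beB : ∀ x ∈ B, x ≠ b → be x < be u := by
    intro x hx hxb
    exact (h.boxB hx hxb).trans_le (h.low hu h2)
  -- the four parts of `T`
  set T1 := T.filter (fun t => al t < al u ∧ be u < be t) with hT1
  set T3 := T.filter (fun t => al t < al u ∧ be t < be u) with hT3
  set T4 := T.filter (fun t => al u < al t ∧ be t < be u) with hT4
  set T6 := T.filter (fun t => al u < al t ∧ be u < be t) with hT6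
  have m1 : ∀ t, t ∈ T1 ↔ t ∈ T ∧ al t < al u ∧ be u < be t := by
    intro t; rw [hT1, Finset.mem_filter]
  have m3 : ∀ t, t ∈ T3 ↔ t ∈ T ∧ al t < al u ∧ be t < be u := by
    intro t; rw [hT3, Finset.mem_filter]
  have m4 : ∀ t, t ∈ T4 ↔ t ∈ T ∧ al u < al t ∧ be t < be u := by
    intro t; rw [hT4, Finset.mem_filter]
  have m6 : ∀ t, t ∈ T6 ↔ t ∈ T ∧ al u < al t ∧ be u < be t := by
    intro t; rw [hT6, Finset.mem_filter]
  have hsplit : ∀ t ∈ T, t = u ∨ t ∈ T1 ∨ t ∈ T3 ∨ t ∈ T4 ∨ t ∈ T6 := by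
    intro t ht
    have it := h.inT ht
    by_cases htu : t = u
    · exact Or.inl htu
    right
    rw [m1, m3, m4, m6]
    rcases lt_or_gt_of_ne (h.cr.al_ne it.mem iu.mem it.na iu.na htu) with ha | ha <;>
    rcases lt_or_gt_of_ne (h.cr.be_ne it.mem iu.mem it.nb iu.nb htu) with hb | hb
    · exact Or.inr (Or.inl ⟨ht, ha, hb⟩)
    · exact Or.inl ⟨ht, ha, hb⟩
    · exact Or.inr (Or.inr (Or.inl ⟨ht, ha, hb⟩))
    · exact Or.inr (Or.inr (Or.inr ⟨ht, ha, hb⟩))
  have c1 : rk T al u = 1 + (T1.card + T3.card) := by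
    have e1 : T.filter (fun t => al t ≤ al u) = insert u (T1 ∪ T3) := by
      ext z
      rw [Finset.mem_filter, Finset.mem_insert, Finset.mem_union, m1, m3]
      constructor
      · rintro ⟨hz, hle⟩
        rcases hsplit z hz with k | k | k | k | k
        · exact Or.inl k
        · exact Or.inr (Or.inl ((m1 z).1 k))
        · exact Or.inr (Or.inr ((m3 z).1 k))
        · linarith [((m4 z).1 k).2.1]
        · linarith [((m6 z).1 k).2.1]
      · rintro (rfl | hz | hz)
        · exact ⟨hu, le_rfl⟩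
        · exact ⟨hz.1, hz.2.1.le⟩
        · exact ⟨hz.1, hz.2.1.le⟩
    unfold rk
    rw [e1, Finset.card_insert_of_notMem, Finset.card_union_of_disjoint]
    · omega
    · rw [Finset.disjoint_left]
      intro z hz hz'
      rw [m1] at hz; rw [m3] at hz'
      linarith [hz.2.2, hz'.2.2]
    · rw [Finset.mem_union, not_or, m1, m3]
      exact ⟨fun hh => lt_irrefl _ hh.2.1, fun hh => lt_irrefl _ hh.2.1⟩
  have c2 : m = rk T al u + (T4.card + T6.card) := by
    rw [c1, ← h.Tm]
    have e1 : T = insert u ((T1 ∪ T3) ∪ (T4 ∪ T6)) := by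
      ext z
      rw [Finset.mem_insert, Finset.mem_union, Finset.mem_union, Finset.mem_union]
      constructor
      · intro hz
        rcases hsplit z hz with k | k | k | k | k
        · exact Or.inl k
        · exact Or.inr (Or.inl (Or.inl k))
        · exact Or.inr (Or.inl (Or.inr k))
        · exact Or.inr (Or.inr (Or.inl k))
        · exact Or.inr (Or.inr (Or.inr k))
      · rintro (rfl | (hz | hz) | (hz | hz))
        · exact hu
        · exact ((m1 z).1 hz).1
        · exact ((m3 z).1 hz).1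
        · exact ((m4 z).1 hz).1
        · exact ((m6 z).1 hz).1
    conv_lhs => rw [e1]
    rw [Finset.card_insert_of_notMem, Finset.card_union_of_disjoint, Finset.card_union_of_disjoint,
      Finset.card_union_of_disjoint]
    · omega
    · rw [Finset.disjoint_left]
      intro z hz hz'
      rw [m4] at hz; rw [m6] at hz'
      linarith [hz.2.2, hz'.2.2]
    · rw [Finset.disjoint_left]
      intro z hz hz'
      rw [m1] at hz; rw [m3] at hz'
      linarith [hz.2.2, hz'.2.2]
    · rw [Finset.disjoint_left]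
      intro z hz hz'
      rw [Finset.mem_union, m1, m3] at hz
      rw [Finset.mem_union, m4, m6] at hz'
      rcases hz with hz | hz <;> rcases hz' with hz' | hz' <;> linarith [hz.2.1, hz'.2.1]
    · rw [Finset.mem_union, Finset.mem_union, Finset.mem_union, m1, m3, m4, m6]
      rintro ((hh | hh) | (hh | hh)) <;> exact lt_irrefl _ hh.2.1
  -- the point `t3`
  have hT3ne : T3.Nonempty := ⟨q3, (m3 q3).2 ⟨hq3, q3a, q3b⟩⟩
  have hT4ne : T4.Nonempty := ⟨q4, (m4 q4).2 ⟨hq4, q4a, q4b⟩⟩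
  have hDc : ∀ z ∈ P, z ≠ c → ga z < ga u → D s u c z < 0 := fun z hz hzc hg =>
    h.cr.pc' iu.mem hz iu.nc hzc hg
  have g3 : ∀ z ∈ T3, ga z < ga u := fun z hz => gaT z ((m3 z).1 hz).1 ((m3 z).1 hz).2.2
  have g4 : ∀ z ∈ T4, ga z < ga u := fun z hz => gaT z ((m4 z).1 hz).1 ((m4 z).1 hz).2.2
  have n3 : ∀ z ∈ T3, z ≠ u := by
    rintro z hz rfl; exact lt_irrefl _ ((m3 _).1 hz).2.1
  have n4 : ∀ z ∈ T4, z ≠ u := by
    rintro z hz rfl; exact lt_irrefl _ ((m4 _).1 hz).2.1
  obtain ⟨t3, ht3, ht3m⟩ := first_hit' (s := s) (q := u) (b := c) hT3ne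
    (fun z hz => by
      have iz := h.inT ((m3 z).1 hz).1
      exact (hDc z iz.mem iz.nc (g3 z hz)).ne)
    (fun z hz w hw hzw => by
      have iz := h.inT ((m3 z).1 hz).1
      have iw := h.inT ((m3 w).1 hw).1
      exact h.cr.cf.gen.D_ne h.cr.cf.hs iu.mem iz.mem iw.mem (n3 z hz).symm (n3 w hw).symm hzw)
  obtain ⟨t4, ht4, ht4m⟩ := first_hit (s := s) (q := u) (b := c) hT4ne
    (fun z hz => by
      have iz := h.inT ((m4 z).1 hz).1
      exact (hDc z iz.mem iz.nc (g4 z hz)).ne)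
    (fun z hz w hw hzw => by
      have iz := h.inT ((m4 z).1 hz).1
      have iw := h.inT ((m4 w).1 hw).1
      exact h.cr.cf.gen.D_ne h.cr.cf.hs iu.mem iz.mem iw.mem (n4 z hz).symm (n4 w hw).symm hzw)
  have ht3T := ((m3 t3).1 ht3).1
  have ht4T := ((m4 t4).1 ht4).1
  have it3 := h.inT ht3T
  have it4 := h.inT ht4T
  have a3 := ((m3 t3).1 ht3).2.1
  have b3 := ((m3 t3).1 ht3).2.2
  have a4 := ((m4 t4).1 ht4).2.1
  have b4 := ((m4 t4).1 ht4).2.2
  have gt3 := g3 t3 ht3
  have gt4 := g4 t4 ht4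
  have l3 : ∀ z ∈ T3, z ≠ t3 → D s u t3 z < 0 := by
    intro z hz hne
    have iz := h.inT ((m3 z).1 hz).1
    have e1 := ht3m z hz hne
    have e2 := hDc z iz.mem iz.nc (g3 z hz)
    have e3 := hDc t3 it3.mem it3.nc gt3
    have e4 := mul_pos_of_neg_of_neg e3 e2
    by_contra hc
    have := mul_nonneg (not_lt.1 hc) e4.le
    linarith
  have l4 : ∀ z ∈ T4, z ≠ t4 → 0 < D s u t4 z := by
    intro z hz hne
    have iz := h.inT ((m4 z).1 hz).1
    have e1 := ht4m z hz hne
    have e2 := hDc z iz.mem iz.nc (g4 z hz)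
    have e3 := hDc t4 it4.mem it4.nc gt4
    exact (pos_iff_pos_of_mul_pos e1).2 (mul_pos_of_neg_of_neg e3 e2)
  -- the two families
  set X := B.filter (fun x => x ≠ b ∧ D s t3 u x < 0) with hX
  set Y := C.filter (fun y => y ≠ c ∧ 0 < D s t4 u y) with hY
  have mX : ∀ x, x ∈ X ↔ x ∈ B ∧ x ≠ b ∧ D s t3 u x < 0 := by
    intro x; rw [hX, Finset.mem_filter]
  have mY : ∀ x, x ∈ Y ↔ x ∈ C ∧ x ≠ c ∧ 0 < D s t4 u x := by
    intro x; rw [hY, Finset.mem_filter]
  have kX : T6.card + 1 ≤ X.card := by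
    have hy0X : y0 ∈ X := (mX y0).2 ⟨hy0B, hy0b, h.y0_right hy0B hy0 ht3T a3⟩
    rcases Nat.eq_zero_or_pos T6.card with h6 | h6
    · have := Finset.card_pos.2 ⟨y0, hy0X⟩
      omega
    obtain ⟨t6, ht6⟩ := Finset.card_pos.1 h6
    obtain ⟨ht6T, a6, b6⟩ := (m6 t6).1 ht6
    have it6 := h.inT ht6T
    have d6 := h.T3 hu h1 h2 ht3T a3 b3 gt3 it6.mem it6.nc (gaT' t6 ht6T b6)
    have htu := n3 t3 ht3
    have la := h.cr.la it3.mem iu.mem it3.na iu.na a3
    have lb := h.cr.lb it3.mem iu.mem it3.nb iu.nb b3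
    have hsides := sides_card h.cr.cf it3.mem iu.mem htu
    have hlight : (Lf s P t3 u).card ≤ m := by
      by_contra hc
      have h6m : t6 ∈ Lf s P t3 u := mem_Lf.2 ⟨it6.mem, d6.le⟩
      obtain ⟨w0, hw0, hw0a, hw0m, hw0e⟩ := h.cr.al_max Lf_sub h6m it6.na
      have e1 := hw0m t6 h6m it6.na
      have e2 := h.cr.al_b it3.mem it3.na it3.nb
      exact h.thin.five Lf_sub (by omega)
        (ext_a h.cr.cf Lf_sub (mem_Lf.2 ⟨h.cr.cf.ha, la.le⟩))
        (ext_b h.cr.cf Lf_sub (mem_Lf.2 ⟨h.cr.cf.hb, lb.le⟩))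
        (Lf_p h.cr.cf it3.mem iu.mem htu) (Lf_q h.cr.cf it3.mem iu.mem htu) hw0e
        (nd5 h.cr.cf.ab it3.na.symm iu.na.symm hw0a.symm it3.nb.symm iu.nb.symm
          (by rintro rfl; linarith) htu (by rintro rfl; linarith) (by rintro rfl; linarith))
    have hsub : Rt s P t3 u ⊆ insert t3 (insert u (C ∪ (T4 ∪ X))) := by
      intro z hz
      obtain ⟨hzP, hzD⟩ := mem_Rt.1 hz
      simp only [Finset.mem_insert, Finset.mem_union]
      rcases h.cover z hzP with k | k | k | k
      · rw [k] at hzD; linarith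
      · rcases hsplit z k with j | j | j | j | j
        · exact Or.inr (Or.inl j)
        · obtain ⟨j1, j2, j3⟩ := (m1 z).1 j
          have := h.T3 hu h1 h2 ht3T a3 b3 gt3 hzP (h.inT j1).nc (gaT' z j1 j3)
          linarith
        · by_cases hz3 : z = t3
          · exact Or.inl hz3
          · have := l3 z j hz3
            rw [D_swap] at this
            linarith
        · exact Or.inr (Or.inr (Or.inr (Or.inl j)))
        · obtain ⟨j1, j2, j3⟩ := (m6 z).1 j
          have := h.T3 hu h1 h2 ht3T a3 b3 gt3 hzP (h.inT j1).nc (gaT' z j1 j3)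
          linarith
      · right; right; right; right
        have hzb : z ≠ b := by rintro rfl; linarith
        refine (mX z).2 ⟨k, hzb, ?_⟩
        refine lt_of_le_of_ne hzD (h.cr.cf.gen.D_ne h.cr.cf.hs it3.mem iu.mem hzP htu ?_ ?_)
        · rintro rfl; exact h.BT k ht3T
        · rintro rfl; exact h.BT k hu
      · exact Or.inr (Or.inr (Or.inl k))
    have e1 := Finset.card_le_card hsub
    have e2 := Finset.card_insert_le t3 (insert u (C ∪ (T4 ∪ X)))
    have e3 := Finset.card_insert_le u (C ∪ (T4 ∪ X))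
    have e4 := Finset.card_union_le C (T4 ∪ X)
    have e5 := Finset.card_union_le T4 X
    omega
  have kY : T1.card + 1 ≤ Y.card := by
    have hx0Y : x0 ∈ Y := (mY x0).2 ⟨hx0, hx0c, h.x0_left hu h2 hx0 hx0c hx0e hx0g ht4T a4⟩
    rcases Nat.eq_zero_or_pos T1.card with h6 | h6
    · have := Finset.card_pos.2 ⟨x0, hx0Y⟩
      omega
    obtain ⟨t6, ht6⟩ := Finset.card_pos.1 h6
    obtain ⟨ht6T, a6, b6⟩ := (m1 t6).1 ht6
    have it6 := h.inT ht6T
    have d6 := h.T4 hu h1 h2 hx0 hx0c hx0e hx0g ht4T a4 b4 gt4 it6.mem it6.nb b6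
    have htu := n4 t4 ht4
    have ra := h.cr.ra it4.mem iu.mem it4.na iu.na a4
    have rc := h.cr.rc it4.mem iu.mem it4.nc iu.nc gt4
    have hsides := sides_card h.cr.cf it4.mem iu.mem htu
    have hlight : (Rt s P t4 u).card ≤ m := by
      by_contra hc
      have h6m : t6 ∈ Rt s P t4 u := mem_Rt.2 ⟨it6.mem, d6.le⟩
      obtain ⟨w0, hw0, hw0a, hw0m, hw0e⟩ := h.cr.al_min Rt_sub h6m it6.na
      have e1 := hw0m t6 h6m it6.na
      have e2 := h.cr.al_c it4.mem it4.na it4.nc
      exact h.thin.five Rt_sub (by omega)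
        (ext_a h.cr.cf Rt_sub (mem_Rt.2 ⟨h.cr.cf.ha, ra.le⟩))
        (ext_c h.cr.cf Rt_sub (mem_Rt.2 ⟨h.cr.cf.hc, rc.le⟩))
        (Rt_p h.cr.cf it4.mem iu.mem htu) (Rt_q h.cr.cf it4.mem iu.mem htu) hw0e
        (nd5 h.cr.cf.ca.symm it4.na.symm iu.na.symm hw0a.symm it4.nc.symm iu.nc.symm
          (by rintro rfl; linarith) htu (by rintro rfl; linarith) (by rintro rfl; linarith))
    have hsub : Lf s P t4 u ⊆ insert t4 (insert u (B ∪ (T3 ∪ Y))) := by
      intro z hz
      obtain ⟨hzP, hzD⟩ := mem_Lf.1 hz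
      simp only [Finset.mem_insert, Finset.mem_union]
      rcases h.cover z hzP with k | k | k | k
      · rw [k] at hzD; linarith
      · rcases hsplit z k with j | j | j | j | j
        · exact Or.inr (Or.inl j)
        · obtain ⟨j1, j2, j3⟩ := (m1 z).1 j
          have := h.T4 hu h1 h2 hx0 hx0c hx0e hx0g ht4T a4 b4 gt4 hzP (h.inT j1).nb j3
          linarith
        · exact Or.inr (Or.inr (Or.inr (Or.inl j)))
        · by_cases hz3 : z = t4
          · exact Or.inl hz3
          · have := l4 z j hz3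
            rw [D_swap] at this
            linarith
        · obtain ⟨j1, j2, j3⟩ := (m6 z).1 j
          have := h.T4 hu h1 h2 hx0 hx0c hx0e hx0g ht4T a4 b4 gt4 hzP (h.inT j1).nb j3
          linarith
      · exact Or.inr (Or.inr (Or.inl k))
      · right; right; right; right
        have hzc : z ≠ c := by rintro rfl; linarith
        refine (mY z).2 ⟨k, hzc, ?_⟩
        refine lt_of_le_of_ne hzD
          (h.cr.cf.gen.D_ne h.cr.cf.hs it4.mem iu.mem hzP htu ?_ ?_).symm
        · rintro rfl; exact h.CT k ht4T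
        · rintro rfl; exact h.CT k hu
    have e1 := Finset.card_le_card hsub
    have e2 := Finset.card_insert_le t4 (insert u (B ∪ (T3 ∪ Y)))
    have e3 := Finset.card_insert_le u (B ∪ (T3 ∪ Y))
    have e4 := Finset.card_union_le B (T3 ∪ Y)
    have e5 := Finset.card_union_le T3 Y
    omega
  obtain ⟨X', hX', cX'⟩ := Finset.exists_subset_card_eq kX
  obtain ⟨Y', hY', cY'⟩ := Finset.exists_subset_card_eq kY
  have pX : ∀ x ∈ X', x ∈ B ∧ x ≠ b ∧ D s t3 u x < 0 := fun x hx => (mX x).1 (hX' hx)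
  have pY : ∀ x ∈ Y', x ∈ C ∧ x ≠ c ∧ 0 < D s t4 u x := fun x hx => (mY x).1 (hY' hx)
  set Z := (T3 ∪ X') ∪ (T4 ∪ Y') with hZ
  have mZ : ∀ z, z ∈ Z ↔ (z ∈ T3 ∨ z ∈ X') ∨ (z ∈ T4 ∨ z ∈ Y') := by
    intro z; simp only [hZ, Finset.mem_union]
  have hZin : ∀ z ∈ Z, In P a b c z := by
    intro z hz
    rcases (mZ z).1 hz with (k | k) | (k | k)
    · exact h.inT ((m3 z).1 k).1
    · exact h.inB (pX z k).1 (pX z k).2.1
    · exact h.inT ((m4 z).1 k).1
    · exact h.inC (pY z k).1 (pY z k).2.1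
  have hZga : ∀ z ∈ Z, ga z < ga u := by
    intro z hz
    rcases (mZ z).1 hz with (k | k) | (k | k)
    · exact g3 z k
    · exact (h.B1 z (pX z k).1 u hu).2
    · exact g4 z k
    · exact gaC z (pY z k).1 (pY z k).2.1
  have hZbe : ∀ z ∈ Z, be z < be u := by
    intro z hz
    rcases (mZ z).1 hz with (k | k) | (k | k)
    · exact ((m3 z).1 k).2.2
    · exact beB z (pX z k).1 (pX z k).2.1
    · exact ((m4 z).1 k).2.2
    · exact (h.C1 z (pY z k).1 u hu).2
  have huZ : u ∉ Z := fun hh => lt_irrefl _ (hZga u hh)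
  set S := insert u Z with hS
  have hSP : S ⊆ P := by
    intro z hz
    rcases Finset.mem_insert.1 hz with rfl | hz
    · exact iu.mem
    · exact (hZin z hz).mem
  have hScard : S.card = m + 2 := by
    rw [hS, Finset.card_insert_of_notMem huZ, hZ, Finset.card_union_of_disjoint,
      Finset.card_union_of_disjoint, Finset.card_union_of_disjoint, cX', cY']
    · omega
    · rw [Finset.disjoint_left]
      intro z hz hz'
      exact h.CT (pY z hz').1 ((m4 z).1 hz).1
    · rw [Finset.disjoint_left]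
      intro z hz hz'
      exact h.BT (pX z hz').1 ((m3 z).1 hz).1
    · rw [Finset.disjoint_left]
      intro z hz hz'
      rw [Finset.mem_union] at hz hz'
      rcases hz with hz | hz <;> rcases hz' with hz' | hz'
      · linarith [((m3 z).1 hz).2.1, ((m4 z).1 hz').2.1]
      · exact h.CT (pY z hz').1 ((m3 z).1 hz).1
      · exact h.BT (pX z hz).1 ((m4 z).1 hz').1
      · exact h.BC (pX z hz).1 (pY z hz').1
  have ht3Z : t3 ∈ Z := (mZ t3).2 (Or.inl (Or.inl ht3))
  have ht4Z : t4 ∈ Z := (mZ t4).2 (Or.inr (Or.inl ht4))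
  have hZne : Z.Nonempty := ⟨t3, ht3Z⟩
  have hf1 : ∀ z ∈ Z, D s u c z ≠ 0 := fun z hz =>
    (hDc z (hZin z hz).mem (hZin z hz).nc (hZga z hz)).ne
  have hf2 : ∀ z ∈ Z, ∀ w ∈ Z, z ≠ w → D s u z w ≠ 0 := by
    intro z hz w hw hzw
    have hzu : u ≠ z := by rintro rfl; exact huZ hz
    have hwu : u ≠ w := by rintro rfl; exact huZ hw
    exact h.cr.cf.gen.D_ne h.cr.cf.hs iu.mem (hZin z hz).mem (hZin w hw).mem hzu hwu hzw
  obtain ⟨e1, he1, he1m⟩ := first_hit hZne hf1 hf2
  obtain ⟨e2, he2, he2m⟩ := first_hit' hZne hf1 hf2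
  have he1p : ∀ z ∈ Z, z ≠ e1 → 0 < D s u e1 z := by
    intro z hz hne
    have k1 := hDc z (hZin z hz).mem (hZin z hz).nc (hZga z hz)
    have k2 := hDc e1 (hZin e1 he1).mem (hZin e1 he1).nc (hZga e1 he1)
    exact (pos_iff_pos_of_mul_pos (he1m z hz hne)).2 (mul_pos_of_neg_of_neg k2 k1)
  have he2p : ∀ z ∈ Z, z ≠ e2 → D s u e2 z < 0 := by
    intro z hz hne
    have k1 := hDc z (hZin z hz).mem (hZin z hz).nc (hZga z hz)
    have k2 := hDc e2 (hZin e2 he2).mem (hZin e2 he2).nc (hZga e2 he2)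
    have k3 := mul_pos_of_neg_of_neg k2 k1
    have k4 := he2m z hz hne
    by_contra hc
    have := mul_nonneg (not_lt.1 hc) k3.le
    linarith
  have he1T : e1 ∈ T3 := by
    rcases (mZ e1).1 he1 with (k | k) | k
    · exact k
    · exfalso
      have hne : t3 ≠ e1 := by
        rintro rfl; exact h.BT (pX _ k).1 ht3T
      have k1 := he1p t3 ht3Z hne
      have k2 := (pX e1 k).2.2
      have k3 := D_cyc' s u e1 t3
      linarith
    · exfalso
      have k5 : al u < al e1 ∧ ga e1 < ga u := by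
        rcases k with k | k
        · exact ⟨((m4 e1).1 k).2.1, g4 e1 k⟩
        · exact ⟨(h.C1 e1 (pY e1 k).1 u hu).1, gaC e1 (pY e1 k).1 (pY e1 k).2.1⟩
      have hne : t3 ≠ e1 := by
        rintro rfl; linarith [k5.1]
      have k1 := he1p t3 ht3Z hne
      have k2 := h.cr.sec34 iu it3 (hZin e1 he1) a3 gt3 k5.1 k5.2
      rw [D_swap'] at k2
      linarith
  have he2T : e2 ∈ T4 := by
    rcases (mZ e2).1 he2 with k | (k | k)
    · exfalso
      have k5 : al e2 < al u ∧ ga e2 < ga u := by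
        rcases k with k | k
        · exact ⟨((m3 e2).1 k).2.1, g3 e2 k⟩
        · exact ⟨(h.B1 e2 (pX e2 k).1 u hu).1, (h.B1 e2 (pX e2 k).1 u hu).2⟩
      have hne : t4 ≠ e2 := by
        rintro rfl; linarith [k5.1]
      have k1 := he2p t4 ht4Z hne
      have k2 := h.cr.sec34 iu (hZin e2 he2) it4 k5.1 k5.2 a4 gt4
      linarith
    · exact k
    · exfalso
      have hne : t4 ≠ e2 := by
        rintro rfl; exact h.CT (pY _ k).1 ht4T
      have k1 := he2p t4 ht4Z hne
      have k2 := (pY e2 k).2.2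
      have k3 := D_cyc' s u e2 t4
      linarith
  have he12 : e1 ≠ e2 := by
    rintro rfl
    linarith [((m3 e1).1 he1T).2.1, ((m4 e1).1 he2T).2.1]
  have hu1 : u ≠ e1 := by rintro rfl; exact huZ he1
  have hu2 : u ≠ e2 := by rintro rfl; exact huZ he2
  have huS : u ∈ S := Finset.mem_insert_self _ _
  have hZS : Z ⊆ S := Finset.subset_insert _ _
  have ext1 : ExtP S e1 := by
    refine edge_ext' (s := s) huS (hZS he1) hu1 fun z hz hz1 hz2 => ?_
    exact he1p z ((Finset.mem_insert.1 hz).resolve_left hz1) hz2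
  have ext2 : ExtP S e2 := by
    refine edge_ext' (s := -s) huS (hZS he2) hu2 fun z hz hz1 hz2 => ?_
    rw [D_neg]
    linarith [he2p z ((Finset.mem_insert.1 hz).resolve_left hz1) hz2]
  have extu : ExtP S u := by
    refine h.cr.ext_be_max hSP huS iu.nb fun z hz hzb => ?_
    rcases Finset.mem_insert.1 hz with rfl | hz
    · exact le_rfl
    · exact (hZbe z hz).le
  have hX'ne : X'.Nonempty := Finset.card_pos.1 (by omega)
  have hY'ne : Y'.Nonempty := Finset.card_pos.1 (by omega)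
  obtain ⟨x, hx⟩ := hX'ne
  obtain ⟨y, hy⟩ := hY'ne
  have hxS : x ∈ S := hZS ((mZ x).2 (Or.inl (Or.inr hx)))
  have hyS : y ∈ S := hZS ((mZ y).2 (Or.inr (Or.inr hy)))
  have ix := h.inB (pX x hx).1 (pX x hx).2.1
  have iy := h.inC (pY y hy).1 (pY y hy).2.1
  obtain ⟨z0, hz0, hz0a, hz0m, hz0e⟩ := h.cr.al_min hSP hxS ix.na
  obtain ⟨z1, hz1, hz1a, hz1m, hz1e⟩ := h.cr.al_max hSP hxS ix.na
  have f1 := hz0m x hxS ix.na
  have f2 := hz1m y hyS iy.na
  have f3 := (h.B1 x (pX x hx).1 u hu).1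
  have f4 := (h.B1 x (pX x hx).1 e1 ((m3 e1).1 he1T).1).1
  have f5 := (h.B1 x (pX x hx).1 e2 ((m4 e2).1 he2T).1).1
  have f6 := (h.C1 y (pY y hy).1 u hu).1
  have f7 := (h.C1 y (pY y hy).1 e1 ((m3 e1).1 he1T).1).1
  have f8 := (h.C1 y (pY y hy).1 e2 ((m4 e2).1 he2T).1).1
  exact h.thin.five hSP (by omega) extu ext1 ext2 hz0e hz1e
    (nd5 hu1 hu2 (by rintro rfl; linarith) (by rintro rfl; linarith) he12
      (by rintro rfl; linarith) (by rintro rfl; linarith) (by rintro rfl; linarith)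
      (by rintro rfl; linarith) (by rintro rfl; linarith))

end

end Pool.Agent.G5.S1
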