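import Pool.Agent.Lib_helper61.G5.Frame

/-!
# MP_022ed3_co: coordinates for a triangular hull
-/

set_option autoImplicit false

namespace Pool.Agent.G5.Coord

open Pool.Agent.G5.Lower Pool.Agent.G5.Planar Pool.Agent.G5.Core Pool.Agent.G5.Frame

/-- the angular coordinate at the vertex `a` -/
noncomputable def crd (s : ℝ) (a b c p : ℝ × ℝ) : ℝ := D s a b p / (D s a b p + D s c a p)

section crd

variable {s : ℝ} {P : Finset (ℝ × ℝ)} {a b c p q : ℝ × ℝ}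

lemma crd_den (h : Conf3 s P a b c) (hp : p ∈ P) (hpa : p ≠ a) :
    0 < D s a b p + D s c a p := by
  by_cases hb : p = b
  · subst hb
    rw [D_self23, zero_add]
    exact h.eca p hp h.bc hpa
  · by_cases hc : p = c
    · subst hc
      rw [D_self13, add_zero]
      exact h.eab p hp hpa hb
    · exact add_pos (h.eab p hp hpa hb) (h.eca p hp hc hpa)

lemma crd_lt (h : Conf3 s P a b c) (hp : p ∈ P) (hq : q ∈ P) (hpa : p ≠ a) (hqa : q ≠ a) :
    crd s a b c p < crd s a b c q ↔ 0 < D s a p q := by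
  unfold crd
  rw [div_lt_div_iff₀ (crd_den h hp hpa) (crd_den h hq hqa)]
  have key : D s a b q * (D s a b p + D s c a p) - D s a b p * (D s a b q + D s c a q) =
      D s a b c * D s a p q := by
    simp only [D, dt]; ring
  have hpos : 0 < D s a b c := h.eab c h.hc h.ca h.bc.symm
  constructor
  · intro hlt
    have : 0 < D s a b c * D s a p q := by linarith
    exact (pos_iff_pos_of_mul_pos this).1 hpos
  · intro hlt
    have := mul_pos hpos hlt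
    linarith

end crd

/-- three coordinate functions for a triangular hull -/
structure Crd (s : ℝ) (P : Finset (ℝ × ℝ)) (a b c : ℝ × ℝ) (al be ga : ℝ × ℝ → ℝ) : Prop where
  cf : Conf3 s P a b c
  al_lt : ∀ p ∈ P, ∀ q ∈ P, p ≠ a → q ≠ a → (al p < al q ↔ 0 < D s a p q)
  be_lt : ∀ p ∈ P, ∀ q ∈ P, p ≠ b → q ≠ b → (be p < be q ↔ 0 < D s b p q)
  ga_lt : ∀ p ∈ P, ∀ q ∈ P, p ≠ c → q ≠ c → (ga p < ga q ↔ D s c p q < 0)

/-- an interior point -/
structure In (P : Finset (ℝ × ℝ)) (a b c p : ℝ × ℝ) : Prop where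
  mem : p ∈ P
  na : p ≠ a
  nb : p ≠ b
  nc : p ≠ c

theorem exists_crd {s : ℝ} {P : Finset (ℝ × ℝ)} {a b c : ℝ × ℝ} (h : Conf3 s P a b c) :
    ∃ al be ga : ℝ × ℝ → ℝ, Crd s P a b c al be ga := by
  refine ⟨crd s a b c, crd s b c a, fun p => - crd s c a b p, h,
    fun p hp q hq hpa hqa => crd_lt h hp hq hpa hqa,
    fun p hp q hq hpa hqa => crd_lt h.rot hp hq hpa hqa, ?_⟩
  intro p hp q hq hpa hqa
  rw [neg_lt_neg_iff, crd_lt h.rot.rot hq hp hqa hpa, D_swap']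
  constructor <;> intro h <;> linarith

section facts

variable {s : ℝ} {P S : Finset (ℝ × ℝ)} {a b c p q x y z : ℝ × ℝ} {al be ga : ℝ × ℝ → ℝ}

lemma Crd.al_ne (h : Crd s P a b c al be ga) (hp : p ∈ P) (hq : q ∈ P) (hpa : p ≠ a)
    (hqa : q ≠ a) (hpq : p ≠ q) : al p ≠ al q := by
  intro he
  have h1 := h.al_lt p hp q hq hpa hqa
  have h2 := h.al_lt q hq p hp hqa hpa
  rw [he] at h1
  rw [he] at h2
  have h3 : D s a p q ≠ 0 := h.cf.gen.D_ne h.cf.hs h.cf.ha hp hq hpa.symm hqa.symm hpq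
  have h4 : ¬ 0 < D s a p q := fun hh => lt_irrefl _ (h1.2 hh)
  have h5 : ¬ 0 < D s a q p := fun hh => lt_irrefl _ (h2.2 hh)
  rw [D_swap'] at h5
  exact h3 (le_antisymm (not_lt.1 h4) (by linarith [not_lt.1 h5]))

lemma Crd.be_ne (h : Crd s P a b c al be ga) (hp : p ∈ P) (hq : q ∈ P) (hpa : p ≠ b)
    (hqa : q ≠ b) (hpq : p ≠ q) : be p ≠ be q := by
  intro he
  have h1 := h.be_lt p hp q hq hpa hqa
  have h2 := h.be_lt q hq p hp hqa hpa
  rw [he] at h1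
  rw [he] at h2
  have h3 : D s b p q ≠ 0 := h.cf.gen.D_ne h.cf.hs h.cf.hb hp hq hpa.symm hqa.symm hpq
  have h4 : ¬ 0 < D s b p q := fun hh => lt_irrefl _ (h1.2 hh)
  have h5 : ¬ 0 < D s b q p := fun hh => lt_irrefl _ (h2.2 hh)
  rw [D_swap'] at h5
  exact h3 (le_antisymm (not_lt.1 h4) (by linarith [not_lt.1 h5]))

lemma Crd.ga_ne (h : Crd s P a b c al be ga) (hp : p ∈ P) (hq : q ∈ P) (hpa : p ≠ c)
    (hqa : q ≠ c) (hpq : p ≠ q) : ga p ≠ ga q := by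
  intro he
  have h1 := h.ga_lt p hp q hq hpa hqa
  have h2 := h.ga_lt q hq p hp hqa hpa
  rw [he] at h1
  rw [he] at h2
  have h3 : D s c p q ≠ 0 := h.cf.gen.D_ne h.cf.hs h.cf.hc hp hq hpa.symm hqa.symm hpq
  have h4 : ¬ D s c p q < 0 := fun hh => lt_irrefl _ (h1.2 hh)
  have h5 : ¬ D s c q p < 0 := fun hh => lt_irrefl _ (h2.2 hh)
  rw [D_swap'] at h5
  exact h3 (le_antisymm (by linarith [not_lt.1 h5]) (not_lt.1 h4))

lemma Crd.al_lt' (h : Crd s P a b c al be ga) (hp : p ∈ P) (hq : q ∈ P) (hpa : p ≠ a)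
    (hqa : q ≠ a) (hpq : p ≠ q) (hle : al p ≤ al q) : al p < al q :=
  lt_of_le_of_ne hle (h.al_ne hp hq hpa hqa hpq)

lemma Crd.be_lt' (h : Crd s P a b c al be ga) (hp : p ∈ P) (hq : q ∈ P) (hpa : p ≠ b)
    (hqa : q ≠ b) (hpq : p ≠ q) (hle : be p ≤ be q) : be p < be q :=
  lt_of_le_of_ne hle (h.be_ne hp hq hpa hqa hpq)

lemma Crd.ga_lt' (h : Crd s P a b c al be ga) (hp : p ∈ P) (hq : q ∈ P) (hpa : p ≠ c)
    (hqa : q ≠ c) (hpq : p ≠ q) (hle : ga p ≤ ga q) : ga p < ga q :=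
  lt_of_le_of_ne hle (h.ga_ne hp hq hpa hqa hpq)

/-! vertices -/

lemma Crd.al_b (h : Crd s P a b c al be ga) (hp : p ∈ P) (hpa : p ≠ a) (hpb : p ≠ b) :
    al b < al p :=
  (h.al_lt b h.cf.hb p hp h.cf.ab.symm hpa).2 (h.cf.eab p hp hpa hpb)

lemma Crd.al_c (h : Crd s P a b c al be ga) (hp : p ∈ P) (hpa : p ≠ a) (hpc : p ≠ c) :
    al p < al c :=
  (h.al_lt p hp c h.cf.hc hpa h.cf.ca).2 (by
    rw [D_cyc]; exact h.cf.eca p hp hpc hpa)

lemma Crd.be_c (h : Crd s P a b c al be ga) (hp : p ∈ P) (hpb : p ≠ b) (hpc : p ≠ c) :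
    be c < be p :=
  (h.be_lt c h.cf.hc p hp h.cf.bc.symm hpb).2 (h.cf.ebc p hp hpb hpc)

lemma Crd.be_a (h : Crd s P a b c al be ga) (hp : p ∈ P) (hpa : p ≠ a) (hpb : p ≠ b) :
    be p < be a :=
  (h.be_lt p hp a h.cf.ha hpb h.cf.ab).2 (by
    have := h.cf.eab p hp hpa hpb; rw [← D_cyc] at this; exact this)

lemma Crd.ga_a (h : Crd s P a b c al be ga) (hp : p ∈ P) (hpa : p ≠ a) (hpc : p ≠ c) :
    ga p < ga a :=
  (h.ga_lt p hp a h.cf.ha hpc h.cf.ca.symm).2 (by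
    have := h.cf.eca p hp hpc hpa; rw [D_swap']; linarith)

lemma Crd.ga_b (h : Crd s P a b c al be ga) (hp : p ∈ P) (hpb : p ≠ b) (hpc : p ≠ c) :
    ga b < ga p :=
  (h.ga_lt b h.cf.hb p hp h.cf.bc hpc).2 (by
    have := h.cf.ebc p hp hpb hpc; rw [← D_cyc] at this; rw [D_swap']; linarith)

/-! orientation of a line `p q` with respect to the vertices -/

lemma Crd.la (h : Crd s P a b c al be ga) (hp : p ∈ P) (hq : q ∈ P) (hpa : p ≠ a) (hqa : q ≠ a)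
    (hlt : al p < al q) : 0 < D s p q a := by
  rw [D_cyc]; exact (h.al_lt p hp q hq hpa hqa).1 hlt

lemma Crd.lb (h : Crd s P a b c al be ga) (hp : p ∈ P) (hq : q ∈ P) (hpb : p ≠ b) (hqb : q ≠ b)
    (hlt : be p < be q) : 0 < D s p q b := by
  rw [D_cyc]; exact (h.be_lt p hp q hq hpb hqb).1 hlt

lemma Crd.lc (h : Crd s P a b c al be ga) (hp : p ∈ P) (hq : q ∈ P) (hpc : p ≠ c) (hqc : q ≠ c)
    (hlt : ga q < ga p) : 0 < D s p q c := by
  have := (h.ga_lt q hq p hp hqc hpc).1 hlt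
  rw [D_cyc, D_swap']; linarith

lemma Crd.ra (h : Crd s P a b c al be ga) (hp : p ∈ P) (hq : q ∈ P) (hpa : p ≠ a) (hqa : q ≠ a)
    (hlt : al q < al p) : D s p q a < 0 := by
  have := h.la hq hp hqa hpa hlt
  rw [D_swap]; linarith

lemma Crd.rb (h : Crd s P a b c al be ga) (hp : p ∈ P) (hq : q ∈ P) (hpb : p ≠ b) (hqb : q ≠ b)
    (hlt : be q < be p) : D s p q b < 0 := by
  have := h.lb hq hp hqb hpb hlt
  rw [D_swap]; linarith

lemma Crd.rc (h : Crd s P a b c al be ga) (hp : p ∈ P) (hq : q ∈ P) (hpc : p ≠ c) (hqc : q ≠ c)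
    (hlt : ga p < ga q) : D s p q c < 0 := by
  have := h.lc hq hp hqc hpc hlt
  rw [D_swap]; linarith

/-- the barycentric identity -/
lemma bary (s : ℝ) (a b c p q : ℝ × ℝ) :
    D s p b c * D s p q a + D s p c a * D s p q b + D s p a b * D s p q c = 0 := by
  simp only [D, dt]; ring

lemma cf_inn (h : Conf3 s P a b c) (hp : In P a b c p) :
    0 < D s p a b ∧ 0 < D s p b c ∧ 0 < D s p c a := by
  refine ⟨?_, ?_, ?_⟩
  · have := h.eab p hp.mem hp.na hp.nb; rw [D_cyc] at this; exact this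
  · have := h.ebc p hp.mem hp.nb hp.nc; rw [D_cyc] at this; exact this
  · have := h.eca p hp.mem hp.nc hp.na; rw [D_cyc] at this; exact this

/-- Ceva: the vertices are not all on the left of a line through an interior point -/
lemma cf_not_left (h : Conf3 s P a b c) (hp : In P a b c p)
    (h1 : 0 < D s p q a) (h2 : 0 < D s p q b) (h3 : 0 < D s p q c) : False := by
  obtain ⟨e1, e2, e3⟩ := cf_inn h hp
  have := bary s a b c p q
  have k1 := mul_pos e2 h1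
  have k2 := mul_pos e3 h2
  have k3 := mul_pos e1 h3
  linarith

/-- `(+,+,·)` gives `+` -/
lemma Crd.ceva_ga (h : Crd s P a b c al be ga) (hp : In P a b c p) (hq : In P a b c q)
    (h1 : al p < al q) (h2 : be p < be q) : ga p < ga q := by
  have hpq : p ≠ q := by rintro rfl; exact lt_irrefl _ h1
  by_contra hcon
  have h3 := h.ga_lt' hq.mem hp.mem hq.nc hp.nc hpq.symm (not_lt.1 hcon)
  exact cf_not_left h.cf hp (h.la hp.mem hq.mem hp.na hq.na h1)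
    (h.lb hp.mem hq.mem hp.nb hq.nb h2) (h.lc hp.mem hq.mem hp.nc hq.nc h3)

/-- `(+,·,-)` gives `-` -/
lemma Crd.ceva_be (h : Crd s P a b c al be ga) (hp : In P a b c p) (hq : In P a b c q)
    (h1 : al p < al q) (h2 : ga q < ga p) : be q < be p := by
  have hpq : p ≠ q := by rintro rfl; exact lt_irrefl _ h1
  by_contra hcon
  have h3 := h.be_lt' hp.mem hq.mem hp.nb hq.nb hpq (not_lt.1 hcon)
  exact cf_not_left h.cf hp (h.la hp.mem hq.mem hp.na hq.na h1)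
    (h.lb hp.mem hq.mem hp.nb hq.nb h3) (h.lc hp.mem hq.mem hp.nc hq.nc h2)

/-- `(·,+,-)` gives `-` -/
lemma Crd.ceva_al (h : Crd s P a b c al be ga) (hp : In P a b c p) (hq : In P a b c q)
    (h1 : be p < be q) (h2 : ga q < ga p) : al q < al p := by
  have hpq : p ≠ q := by rintro rfl; exact lt_irrefl _ h1
  by_contra hcon
  have h3 := h.al_lt' hp.mem hq.mem hp.na hq.na hpq (not_lt.1 hcon)
  exact cf_not_left h.cf hp (h.la hp.mem hq.mem hp.na hq.na h3)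
    (h.lb hp.mem hq.mem hp.nb hq.nb h1) (h.lc hp.mem hq.mem hp.nc hq.nc h2)

/-! signs of `D s p a x` and so on -/

lemma Crd.pa (h : Crd s P a b c al be ga) (hp : p ∈ P) (hx : x ∈ P) (hpa : p ≠ a) (hxa : x ≠ a)
    (hlt : al x < al p) : 0 < D s p a x := by
  have := (h.al_lt x hx p hp hxa hpa).1 hlt
  rw [D_cyc] at this; exact this

lemma Crd.pa' (h : Crd s P a b c al be ga) (hp : p ∈ P) (hx : x ∈ P) (hpa : p ≠ a) (hxa : x ≠ a)
    (hlt : al p < al x) : D s p a x < 0 := by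
  have := (h.al_lt p hp x hx hpa hxa).1 hlt
  rw [D_swap]; linarith

lemma Crd.pb (h : Crd s P a b c al be ga) (hp : p ∈ P) (hx : x ∈ P) (hpa : p ≠ b) (hxa : x ≠ b)
    (hlt : be x < be p) : 0 < D s p b x := by
  have := (h.be_lt x hx p hp hxa hpa).1 hlt
  rw [D_cyc] at this; exact this

lemma Crd.pb' (h : Crd s P a b c al be ga) (hp : p ∈ P) (hx : x ∈ P) (hpa : p ≠ b) (hxa : x ≠ b)
    (hlt : be p < be x) : D s p b x < 0 := by
  have := (h.be_lt p hp x hx hpa hxa).1 hlt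
  rw [D_swap]; linarith

lemma Crd.pc (h : Crd s P a b c al be ga) (hp : p ∈ P) (hx : x ∈ P) (hpa : p ≠ c) (hxa : x ≠ c)
    (hlt : ga p < ga x) : 0 < D s p c x := by
  have := (h.ga_lt p hp x hx hpa hxa).1 hlt
  rw [D_swap]; linarith

lemma Crd.pc' (h : Crd s P a b c al be ga) (hp : p ∈ P) (hx : x ∈ P) (hpa : p ≠ c) (hxa : x ≠ c)
    (hlt : ga x < ga p) : D s p c x < 0 := by
  have := (h.ga_lt x hx p hp hxa hpa).1 hlt
  rw [D_cyc] at this; exact this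

/-- Pluecker identity centered at `p` -/
lemma plk (s : ℝ) (p u v x y : ℝ × ℝ) :
    D s p u v * D s p x y = D s p u x * D s p v y - D s p u y * D s p v x := by
  simp only [D, dt]; ring

/-! sectors: `x ∈ N_i(p)`, `y ∈ N_j(p)` -/

/-- `N3`, `N4` -/
lemma Crd.sec34 (h : Crd s P a b c al be ga) (hp : In P a b c p) (hx : In P a b c x)
    (hy : In P a b c y) (x1 : al x < al p) (x3 : ga x < ga p)
    (y1 : al p < al y) (y3 : ga y < ga p) : 0 < D s p x y := by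
  obtain ⟨e1, e2, e3⟩ := cf_inn h.cf hp
  -- `[c a][x y] = [c x][a y] - [c y][a x]`
  have k := plk s p c a x y
  have c1 := h.pc' hp.mem hx.mem hp.nc hx.nc x3
  have c2 := h.pc' hp.mem hy.mem hp.nc hy.nc y3
  have a1 := h.pa hp.mem hx.mem hp.na hx.na x1
  have a2 := h.pa' hp.mem hy.mem hp.na hy.na y1
  have m1 := mul_pos_of_neg_of_neg c1 a2
  have m2 := mul_neg_of_neg_of_pos c2 a1
  have : 0 < D s p c a * D s p x y := by linarith
  exact (pos_iff_pos_of_mul_pos this).1 e3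

/-- `N3`, `N5` -/
lemma Crd.sec35 (h : Crd s P a b c al be ga) (hp : In P a b c p) (hx : In P a b c x)
    (hy : In P a b c y) (x2 : be x < be p) (x3 : ga x < ga p)
    (y2 : be y < be p) (y3 : ga p < ga y) : 0 < D s p x y := by
  obtain ⟨e1, e2, e3⟩ := cf_inn h.cf hp
  have k := plk s p b c x y
  have c1 := h.pc' hp.mem hx.mem hp.nc hx.nc x3
  have c2 := h.pc hp.mem hy.mem hp.nc hy.nc y3
  have b1 := h.pb hp.mem hx.mem hp.nb hx.nb x2
  have b2 := h.pb hp.mem hy.mem hp.nb hy.nb y2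
  have m1 := mul_pos b1 c2
  have m2 := mul_neg_of_pos_of_neg b2 c1
  have : 0 < D s p b c * D s p x y := by linarith
  exact (pos_iff_pos_of_mul_pos this).1 e2

/-- `N2`, `N4` -/
lemma Crd.sec24 (h : Crd s P a b c al be ga) (hp : In P a b c p) (hx : In P a b c x)
    (hy : In P a b c y) (x2 : be p < be x) (x3 : ga x < ga p)
    (y2 : be y < be p) (y3 : ga y < ga p) : 0 < D s p x y := by
  obtain ⟨e1, e2, e3⟩ := cf_inn h.cf hp
  have k := plk s p b c x y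
  have c1 := h.pc' hp.mem hx.mem hp.nc hx.nc x3
  have c2 := h.pc' hp.mem hy.mem hp.nc hy.nc y3
  have b1 := h.pb' hp.mem hx.mem hp.nb hx.nb x2
  have b2 := h.pb hp.mem hy.mem hp.nb hy.nb y2
  have m1 := mul_pos_of_neg_of_neg b1 c2
  have m2 := mul_neg_of_pos_of_neg b2 c1
  have : 0 < D s p b c * D s p x y := by linarith
  exact (pos_iff_pos_of_mul_pos this).1 e2

/-- the opposite side: `a`, `c` right of `t w`, `x` in the opposite cone, then `x` is left -/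
lemma Crd.oppb (h : Crd s P a b c al be ga) {t w : ℝ × ℝ} (hp : In P a b c t) (hx : x ∈ P)
    (hxa : x ≠ a) (hxc : x ≠ c) (x1 : al x < al t) (x3 : ga x < ga t)
    (ha : D s t w a < 0) (hc : D s t w c < 0) : 0 < D s t w x := by
  obtain ⟨e1, e2, e3⟩ := cf_inn h.cf hp
  have k := plk s t c a w x
  have a1 := h.pa hp.mem hx hp.na hxa x1
  have c1 := h.pc' hp.mem hx hp.nc hxc x3
  have ha' : 0 < D s t a w := by rw [D_swap']; linarith
  have hc' : 0 < D s t c w := by rw [D_swap']; linarith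
  have m1 := mul_pos hc' a1
  have m2 := mul_neg_of_neg_of_pos c1 ha'
  have : 0 < D s t c a * D s t w x := by linarith
  exact (pos_iff_pos_of_mul_pos this).1 e3

/-! extreme points -/

lemma ext_of_min {u : ℝ × ℝ} (hx : x ∈ S) (hxu : x ≠ u)
    (h : ∀ z ∈ S, z ≠ u → z ≠ x → 0 < D s u x z) : ExtP S x := by
  classical
  have h1 : ExtP (insert u S) x := by
    apply edge_ext' (s := s) (p := u) (q := x) (Finset.mem_insert_self _ _)
      (Finset.mem_insert_of_mem hx) hxu.symm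
    intro z hz hzu hzx
    rcases Finset.mem_insert.1 hz with rfl | hz
    · exact absurd rfl hzu
    · exact h z hz hzu hzx
  exact ExtP.mono h1 hx (Finset.subset_insert _ _)

lemma ext_of_max {u : ℝ × ℝ} (hx : x ∈ S) (hxu : x ≠ u)
    (h : ∀ z ∈ S, z ≠ u → z ≠ x → D s u x z < 0) : ExtP S x :=
  ext_of_min (s := -s) hx hxu fun z hz h1 h2 => by rw [D_neg]; linarith [h z hz h1 h2]

lemma Crd.ext_al_min (h : Crd s P a b c al be ga) (hS : S ⊆ P) (hx : x ∈ S) (hxa : x ≠ a)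
    (hm : ∀ z ∈ S, z ≠ a → al x ≤ al z) : ExtP S x :=
  ext_of_min (s := s) hx hxa fun z hz hza hzx =>
    (h.al_lt x (hS hx) z (hS hz) hxa hza).1
      (h.al_lt' (hS hx) (hS hz) hxa hza hzx.symm (hm z hz hza))

lemma Crd.ext_al_max (h : Crd s P a b c al be ga) (hS : S ⊆ P) (hx : x ∈ S) (hxa : x ≠ a)
    (hm : ∀ z ∈ S, z ≠ a → al z ≤ al x) : ExtP S x :=
  ext_of_max (s := s) hx hxa fun z hz hza hzx => by
    have := (h.al_lt z (hS hz) x (hS hx) hza hxa).1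
      (h.al_lt' (hS hz) (hS hx) hza hxa hzx (hm z hz hza))
    rw [D_swap']; linarith

lemma Crd.ext_be_min (h : Crd s P a b c al be ga) (hS : S ⊆ P) (hx : x ∈ S) (hxa : x ≠ b)
    (hm : ∀ z ∈ S, z ≠ b → be x ≤ be z) : ExtP S x :=
  ext_of_min (s := s) hx hxa fun z hz hza hzx =>
    (h.be_lt x (hS hx) z (hS hz) hxa hza).1
      (h.be_lt' (hS hx) (hS hz) hxa hza hzx.symm (hm z hz hza))

lemma Crd.ext_be_max (h : Crd s P a b c al be ga) (hS : S ⊆ P) (hx : x ∈ S) (hxa : x ≠ b)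
    (hm : ∀ z ∈ S, z ≠ b → be z ≤ be x) : ExtP S x :=
  ext_of_max (s := s) hx hxa fun z hz hza hzx => by
    have := (h.be_lt z (hS hz) x (hS hx) hza hxa).1
      (h.be_lt' (hS hz) (hS hx) hza hxa hzx (hm z hz hza))
    rw [D_swap']; linarith

lemma Crd.ext_ga_min (h : Crd s P a b c al be ga) (hS : S ⊆ P) (hx : x ∈ S) (hxa : x ≠ c)
    (hm : ∀ z ∈ S, z ≠ c → ga x ≤ ga z) : ExtP S x :=
  ext_of_max (s := s) hx hxa fun z hz hza hzx =>
    (h.ga_lt x (hS hx) z (hS hz) hxa hza).1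
      (h.ga_lt' (hS hx) (hS hz) hxa hza hzx.symm (hm z hz hza))

lemma Crd.ext_ga_max (h : Crd s P a b c al be ga) (hS : S ⊆ P) (hx : x ∈ S) (hxa : x ≠ c)
    (hm : ∀ z ∈ S, z ≠ c → ga z ≤ ga x) : ExtP S x :=
  ext_of_min (s := s) hx hxa fun z hz hza hzx => by
    have := (h.ga_lt z (hS hz) x (hS hx) hza hxa).1
      (h.ga_lt' (hS hz) (hS hx) hza hxa hzx (hm z hz hza))
    rw [D_swap']; linarith

/-- an element of minimal coordinate -/
lemma exists_mn (f : ℝ × ℝ → ℝ) {u w : ℝ × ℝ} (hw : w ∈ S) (hwu : w ≠ u) :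
    ∃ x ∈ S, x ≠ u ∧ ∀ z ∈ S, z ≠ u → f x ≤ f z := by
  classical
  obtain ⟨x, hx, hm⟩ := (S.erase u).exists_min_image f ⟨w, Finset.mem_erase.2 ⟨hwu, hw⟩⟩
  exact ⟨x, (Finset.mem_erase.1 hx).2, (Finset.mem_erase.1 hx).1,
    fun z hz hzu => hm z (Finset.mem_erase.2 ⟨hzu, hz⟩)⟩

lemma exists_mx (f : ℝ × ℝ → ℝ) {u w : ℝ × ℝ} (hw : w ∈ S) (hwu : w ≠ u) :
    ∃ x ∈ S, x ≠ u ∧ ∀ z ∈ S, z ≠ u → f z ≤ f x := by
  classical
  obtain ⟨x, hx, hm⟩ := (S.erase u).exists_max_image f ⟨w, Finset.mem_erase.2 ⟨hwu, hw⟩⟩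
  exact ⟨x, (Finset.mem_erase.1 hx).2, (Finset.mem_erase.1 hx).1,
    fun z hz hzu => hm z (Finset.mem_erase.2 ⟨hzu, hz⟩)⟩

/-! minimum and maximum with their extremality -/

lemma Crd.al_min (h : Crd s P a b c al be ga) (hS : S ⊆ P) {w : ℝ × ℝ} (hw : w ∈ S)
    (hwu : w ≠ a) : ∃ x ∈ S, x ≠ a ∧ (∀ z ∈ S, z ≠ a → al x ≤ al z) ∧ ExtP S x := by
  obtain ⟨x, hx, hxa, hm⟩ := exists_mn al hw hwu
  exact ⟨x, hx, hxa, hm, h.ext_al_min hS hx hxa hm⟩

lemma Crd.al_max (h : Crd s P a b c al be ga) (hS : S ⊆ P) {w : ℝ × ℝ} (hw : w ∈ S)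
    (hwu : w ≠ a) : ∃ x ∈ S, x ≠ a ∧ (∀ z ∈ S, z ≠ a → al z ≤ al x) ∧ ExtP S x := by
  obtain ⟨x, hx, hxa, hm⟩ := exists_mx al hw hwu
  exact ⟨x, hx, hxa, hm, h.ext_al_max hS hx hxa hm⟩

lemma Crd.be_min (h : Crd s P a b c al be ga) (hS : S ⊆ P) {w : ℝ × ℝ} (hw : w ∈ S)
    (hwu : w ≠ b) : ∃ x ∈ S, x ≠ b ∧ (∀ z ∈ S, z ≠ b → be x ≤ be z) ∧ ExtP S x := by
  obtain ⟨x, hx, hxa, hm⟩ := exists_mn be hw hwu
  exact ⟨x, hx, hxa, hm, h.ext_be_min hS hx hxa hm⟩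

lemma Crd.be_max (h : Crd s P a b c al be ga) (hS : S ⊆ P) {w : ℝ × ℝ} (hw : w ∈ S)
    (hwu : w ≠ b) : ∃ x ∈ S, x ≠ b ∧ (∀ z ∈ S, z ≠ b → be z ≤ be x) ∧ ExtP S x := by
  obtain ⟨x, hx, hxa, hm⟩ := exists_mx be hw hwu
  exact ⟨x, hx, hxa, hm, h.ext_be_max hS hx hxa hm⟩

lemma Crd.ga_min (h : Crd s P a b c al be ga) (hS : S ⊆ P) {w : ℝ × ℝ} (hw : w ∈ S)
    (hwu : w ≠ c) : ∃ x ∈ S, x ≠ c ∧ (∀ z ∈ S, z ≠ c → ga x ≤ ga z) ∧ ExtP S x := by
  obtain ⟨x, hx, hxa, hm⟩ := exists_mn ga hw hwu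
  exact ⟨x, hx, hxa, hm, h.ext_ga_min hS hx hxa hm⟩

lemma Crd.ga_max (h : Crd s P a b c al be ga) (hS : S ⊆ P) {w : ℝ × ℝ} (hw : w ∈ S)
    (hwu : w ≠ c) : ∃ x ∈ S, x ≠ c ∧ (∀ z ∈ S, z ≠ c → ga z ≤ ga x) ∧ ExtP S x := by
  obtain ⟨x, hx, hxa, hm⟩ := exists_mx ga hw hwu
  exact ⟨x, hx, hxa, hm, h.ext_ga_max hS hx hxa hm⟩

/-! closed sides of a line -/

/-- the closed left side of the line `p q` -/
noncomputable def Lf (s : ℝ) (P : Finset (ℝ × ℝ)) (p q : ℝ × ℝ) : Finset (ℝ × ℝ) :=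
  P.filter (fun z => 0 ≤ D s p q z)

/-- the closed right side of the line `p q` -/
noncomputable def Rt (s : ℝ) (P : Finset (ℝ × ℝ)) (p q : ℝ × ℝ) : Finset (ℝ × ℝ) :=
  P.filter (fun z => D s p q z ≤ 0)

lemma mem_Lf : z ∈ Lf s P p q ↔ z ∈ P ∧ 0 ≤ D s p q z := by
  unfold Lf; rw [Finset.mem_filter]

lemma mem_Rt : z ∈ Rt s P p q ↔ z ∈ P ∧ D s p q z ≤ 0 := by
  unfold Rt; rw [Finset.mem_filter]

lemma Lf_sub : Lf s P p q ⊆ P := Finset.filter_subset _ _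
lemma Rt_sub : Rt s P p q ⊆ P := Finset.filter_subset _ _

lemma sides_card (h : Conf3 s P a b c) (hp : p ∈ P) (hq : q ∈ P) (hpq : p ≠ q) :
    (Lf s P p q).card + (Rt s P p q).card = P.card + 2 := by
  classical
  exact card_sides h.gen h.hs hp hq hpq

lemma Lf_p (h : Conf3 s P a b c) (hp : p ∈ P) (hq : q ∈ P) (hpq : p ≠ q) :
    ExtP (Lf s P p q) p := by
  apply edge_ext (s := s) (p := p) (q := q) (mem_Lf.2 ⟨hp, by simp⟩) (mem_Lf.2 ⟨hq, by simp⟩) hpq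
  intro z hz hzp hzq
  have hz' := mem_Lf.1 hz
  exact lt_of_le_of_ne hz'.2 (h.gen.D_ne h.hs hp hq hz'.1 hpq hzp.symm hzq.symm).symm

lemma Lf_q (h : Conf3 s P a b c) (hp : p ∈ P) (hq : q ∈ P) (hpq : p ≠ q) :
    ExtP (Lf s P p q) q := by
  apply edge_ext' (s := s) (p := p) (q := q) (mem_Lf.2 ⟨hp, by simp⟩) (mem_Lf.2 ⟨hq, by simp⟩) hpq
  intro z hz hzp hzq
  have hz' := mem_Lf.1 hz
  exact lt_of_le_of_ne hz'.2 (h.gen.D_ne h.hs hp hq hz'.1 hpq hzp.symm hzq.symm).symm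

lemma Rt_p (h : Conf3 s P a b c) (hp : p ∈ P) (hq : q ∈ P) (hpq : p ≠ q) :
    ExtP (Rt s P p q) p := by
  apply edge_ext (s := -s) (p := p) (q := q) (mem_Rt.2 ⟨hp, by simp⟩) (mem_Rt.2 ⟨hq, by simp⟩) hpq
  intro z hz hzp hzq
  have hz' := mem_Rt.1 hz
  have := lt_of_le_of_ne hz'.2 (h.gen.D_ne h.hs hp hq hz'.1 hpq hzp.symm hzq.symm)
  rw [D_neg]; linarith

lemma Rt_q (h : Conf3 s P a b c) (hp : p ∈ P) (hq : q ∈ P) (hpq : p ≠ q) :
    ExtP (Rt s P p q) q := by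
  apply edge_ext' (s := -s) (p := p) (q := q) (mem_Rt.2 ⟨hp, by simp⟩) (mem_Rt.2 ⟨hq, by simp⟩) hpq
  intro z hz hzp hzq
  have hz' := mem_Rt.1 hz
  have := lt_of_le_of_ne hz'.2 (h.gen.D_ne h.hs hp hq hz'.1 hpq hzp.symm hzq.symm)
  rw [D_neg]; linarith

lemma ext_a (h : Conf3 s P a b c) (hS : S ⊆ P) (ha : a ∈ S) : ExtP S a := ExtP.mono h.exta ha hS
lemma ext_b (h : Conf3 s P a b c) (hS : S ⊆ P) (ha : b ∈ S) : ExtP S b := ExtP.mono h.extb ha hS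
lemma ext_c (h : Conf3 s P a b c) (hS : S ⊆ P) (ha : c ∈ S) : ExtP S c := ExtP.mono h.extc ha hS

end facts

end Pool.Agent.G5.Coord
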