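import Pool.Agent.Lib_helper32.G5.Coord

/-!
# MP_022ed3_co, triangular hull, module S1: data, box, the two classes
-/

set_option autoImplicit false

namespace Pool.Agent.G5.S1

open Pool.Agent.G5.Lower Pool.Agent.G5.Planar Pool.Agent.G5.Core Pool.Agent.G5.Frame
open Pool.Agent.G5.Coord

/-- five distinct points -/
lemma nd5 {e1 e2 e3 e4 e5 : ℝ × ℝ} (h12 : e1 ≠ e2) (h13 : e1 ≠ e3) (h14 : e1 ≠ e4) (h15 : e1 ≠ e5)
    (h23 : e2 ≠ e3) (h24 : e2 ≠ e4) (h25 : e2 ≠ e5) (h34 : e3 ≠ e4) (h35 : e3 ≠ e5)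
    (h45 : e4 ≠ e5) : [e1, e2, e3, e4, e5].Nodup := by
  simp [h12, h13, h14, h15, h23, h24, h25, h34, h35, h45]

/-- the data of module S1 -/
structure S1D (s : ℝ) (m : ℕ) (P T B C : Finset (ℝ × ℝ)) (a b c v L R tau hh : ℝ × ℝ)
    (al be ga : ℝ × ℝ → ℝ) : Prop where
  cr : Crd s P a b c al be ga
  thin : Thin m P
  card : P.card = 2 * m + 1
  hm : 4 ≤ m
  TP : T ⊆ P
  BP : B ⊆ P
  CP : C ⊆ P
  Tm : T.card = m
  cover : ∀ z ∈ P, z = a ∨ z ∈ T ∨ z ∈ B ∨ z ∈ C
  aT : a ∉ T
  aB : a ∉ B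
  aC : a ∉ C
  bB : b ∈ B
  cC : c ∈ C
  B1 : ∀ z ∈ B, ∀ t ∈ T, al z < al t ∧ ga z < ga t
  C1 : ∀ z ∈ C, ∀ t ∈ T, al t < al z ∧ be z < be t
  vT : v ∈ T
  LT : L ∈ T
  RT : R ∈ T
  tT : tau ∈ T
  hT : hh ∈ T
  d1 : ∀ t ∈ T, al v ≤ al t ∧ al t ≤ al R
  LR : L ≠ R
  d2 : ∀ t ∈ T, t ≠ L → t ≠ R → 0 < D s L R t
  d2B : ∀ z ∈ B, D s L R z < 0
  d2C : ∀ z ∈ C, D s L R z < 0
  d3 : v = L ∨ (be L < be v ∧ ∀ t ∈ T, t ≠ v → t ≠ L → 0 < D s v L t)
  tv : tau ≠ v
  d4 : ∀ t ∈ T, be t ≤ be tau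
  d4B : ∀ x ∈ B, x ≠ b → ∀ t ∈ T, t ≠ tau → D s x tau t < 0
  hR : hh ≠ R
  d5 : ga R < ga hh
  d5C : ∀ y ∈ C, D s R hh y < 0

section

variable {s : ℝ} {m : ℕ} {P T B C : Finset (ℝ × ℝ)} {a b c v L R tau hh : ℝ × ℝ}
  {al be ga : ℝ × ℝ → ℝ} {t u x y z : ℝ × ℝ}

lemma S1D.inT (h : S1D s m P T B C a b c v L R tau hh al be ga) (ht : t ∈ T) : In P a b c t := by
  refine ⟨h.TP ht, ?_, ?_, ?_⟩
  · rintro rfl; exact h.aT ht
  · rintro rfl; exact lt_irrefl _ (h.B1 _ h.bB _ ht).1
  · rintro rfl; exact lt_irrefl _ (h.C1 _ h.cC _ ht).1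

lemma S1D.inB (h : S1D s m P T B C a b c v L R tau hh al be ga) (ht : t ∈ B) (hb : t ≠ b) :
    In P a b c t := by
  refine ⟨h.BP ht, ?_, hb, ?_⟩
  · rintro rfl; exact h.aB ht
  · rintro rfl
    have h1 := (h.B1 _ ht _ h.vT).1
    have h2 := (h.C1 _ h.cC _ h.vT).1
    linarith

lemma S1D.inC (h : S1D s m P T B C a b c v L R tau hh al be ga) (ht : t ∈ C) (hc : t ≠ c) :
    In P a b c t := by
  refine ⟨h.CP ht, ?_, ?_, hc⟩
  · rintro rfl; exact h.aC ht
  · rintro rfl
    have h1 := (h.B1 _ h.bB _ h.vT).1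
    have h2 := (h.C1 _ ht _ h.vT).1
    linarith

lemma S1D.BT (h : S1D s m P T B C a b c v L R tau hh al be ga) (hz : z ∈ B) : z ∉ T :=
  fun ht => lt_irrefl _ (h.B1 _ hz _ ht).1

lemma S1D.CT (h : S1D s m P T B C a b c v L R tau hh al be ga) (hz : z ∈ C) : z ∉ T :=
  fun ht => lt_irrefl _ (h.C1 _ hz _ ht).1

lemma S1D.BC (h : S1D s m P T B C a b c v L R tau hh al be ga) (hz : z ∈ B) : z ∉ C := by
  intro hz'
  have h1 := (h.B1 _ hz _ h.vT).1
  have h2 := (h.C1 _ hz' _ h.vT).1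
  linarith

lemma S1D.rq (h : S1D s m P T B C a b c v L R tau hh al be ga) : B.card + C.card = m := by
  have h1 : P = insert a (T ∪ (B ∪ C)) := by
    ext z
    simp only [Finset.mem_insert, Finset.mem_union]
    constructor
    · intro hz; exact h.cover z hz
    · rintro (rfl | hz | hz | hz)
      · exact h.cr.cf.ha
      · exact h.TP hz
      · exact h.BP hz
      · exact h.CP hz
  have h2 : (T ∪ (B ∪ C)).card = T.card + (B.card + C.card) := by
    rw [Finset.card_union_of_disjoint, Finset.card_union_of_disjoint]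
    · rw [Finset.disjoint_left]; intro z hz; exact h.BC hz
    · rw [Finset.disjoint_left]
      intro z hz hz'
      rcases Finset.mem_union.1 hz' with hz' | hz'
      · exact h.BT hz' hz
      · exact h.CT hz' hz
  have h3 : a ∉ T ∪ (B ∪ C) := by
    simp only [Finset.mem_union, not_or]
    exact ⟨h.aT, h.aB, h.aC⟩
  have h4 := h.card
  rw [h1, Finset.card_insert_of_notMem h3, h2, h.Tm] at h4
  omega

/-- `BOX`, first part -/
lemma S1D.box0 (h : S1D s m P T B C a b c v L R tau hh al be ga) : be R < be L ∧ ga L < ga R := by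
  have iL := h.inT h.LT
  have iR := h.inT h.RT
  constructor
  · rw [h.cr.be_lt R iR.mem L iL.mem iR.nb iL.nb]
    have := h.d2B b h.bB
    rw [D_swap', D_cyc']
    linarith
  · rw [h.cr.ga_lt L iL.mem R iR.mem iL.nc iR.nc]
    have := h.d2C c h.cC
    rw [D_cyc']
    exact this

lemma S1D.box (h : S1D s m P T B C a b c v L R tau hh al be ga) :
    (∀ z, z ∈ B ∨ z ∈ C → z ≠ b → be z < be L) ∧ (∀ z, z ∈ B ∨ z ∈ C → z ≠ c → ga z < ga R) ∧
    (∀ t ∈ T, t ≠ L → t ≠ R → be t < be L → ga t < ga R → False) := by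
  obtain ⟨k1, k2⟩ := h.box0
  have iL := h.inT h.LT
  have iR := h.inT h.RT
  set S : Finset (ℝ × ℝ) := insert L (insert R (B ∪ C)) with hS
  have hmem : ∀ z, z ∈ S ↔ z = L ∨ z = R ∨ z ∈ B ∨ z ∈ C := by
    intro z; simp only [hS, Finset.mem_insert, Finset.mem_union]
  have hSP : S ⊆ P := by
    intro z hz
    rcases (hmem z).1 hz with rfl | rfl | hz | hz
    · exact iL.mem
    · exact iR.mem
    · exact h.BP hz
    · exact h.CP hz
  have hRn : R ∉ B ∪ C := by
    rw [Finset.mem_union, not_or]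
    exact ⟨fun hh => h.BT hh h.RT, fun hh => h.CT hh h.RT⟩
  have hLn : L ∉ insert R (B ∪ C) := by
    rw [Finset.mem_insert, Finset.mem_union, not_or, not_or]
    exact ⟨h.LR, fun hh => h.BT hh h.LT, fun hh => h.CT hh h.LT⟩
  have hcard : S.card = m + 2 := by
    rw [hS, Finset.card_insert_of_notMem hLn, Finset.card_insert_of_notMem hRn,
      Finset.card_union_of_disjoint, h.rq]
    rw [Finset.disjoint_left]; intro z hz; exact h.BC hz
  have hright : ∀ z ∈ S, z ≠ L → z ≠ R → D s L R z < 0 := by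
    intro z hz h1 h2
    rcases (hmem z).1 hz with rfl | rfl | hz | hz
    · exact absurd rfl h1
    · exact absurd rfl h2
    · exact h.d2B z hz
    · exact h.d2C z hz
  have hLS : L ∈ S := (hmem L).2 (Or.inl rfl)
  have hRS : R ∈ S := (hmem R).2 (Or.inr (Or.inl rfl))
  have hbS : b ∈ S := (hmem b).2 (Or.inr (Or.inr (Or.inl h.bB)))
  have hcS : c ∈ S := (hmem c).2 (Or.inr (Or.inr (Or.inr h.cC)))
  have eL : ExtP S L := by
    apply edge_ext (s := -s) hLS hRS h.LR
    intro z hz h1 h2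
    rw [D_neg]; linarith [hright z hz h1 h2]
  have eR : ExtP S R := by
    apply edge_ext' (s := -s) hLS hRS h.LR
    intro z hz h1 h2
    rw [D_neg]; linarith [hright z hz h1 h2]
  have eb : ExtP S b := ext_b h.cr.cf hSP hbS
  have ec : ExtP S c := ext_c h.cr.cf hSP hcS
  have hbc := h.cr.cf.bc
  -- the `be` maximum
  have hbe : ∀ z ∈ S, z ≠ b → be z ≤ be L := by
    obtain ⟨w, hw, hwb, hwm, hwe⟩ := h.cr.be_max hSP hLS iL.nb
    have hwL : w = L := by
      by_contra hne
      have h1 : be L < be w := h.cr.be_lt' iL.mem (hSP hw) iL.nb hwb (Ne.symm hne) (hwm L hLS iL.nb)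
      have hwR : w ≠ R := by rintro rfl; linarith
      have hwc : w ≠ c := by
        rintro rfl
        have := h.cr.be_c iL.mem iL.nb iL.nc
        linarith
      exact h.thin.five hSP (by omega) eb ec eL eR hwe
        (nd5 hbc iL.nb.symm iR.nb.symm hwb.symm iL.nc.symm iR.nc.symm hwc.symm h.LR
          (Ne.symm hne) hwR.symm)
    rw [← hwL]; exact hwm
  have hga : ∀ z ∈ S, z ≠ c → ga z ≤ ga R := by
    obtain ⟨w, hw, hwb, hwm, hwe⟩ := h.cr.ga_max hSP hRS iR.nc
    have hwL : w = R := by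
      by_contra hne
      have h1 : ga R < ga w := h.cr.ga_lt' iR.mem (hSP hw) iR.nc hwb (Ne.symm hne) (hwm R hRS iR.nc)
      have hwR : w ≠ L := by rintro rfl; linarith
      have hwc : w ≠ b := by
        rintro rfl
        have := h.cr.ga_b iR.mem iR.nb iR.nc
        linarith
      exact h.thin.five hSP (by omega) eb ec eL eR hwe
        (nd5 hbc iL.nb.symm iR.nb.symm hwc.symm iL.nc.symm iR.nc.symm hwb.symm h.LR
          hwR.symm (Ne.symm hne))
    rw [← hwL]; exact hwm
  refine ⟨?_, ?_, ?_⟩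
  · intro z hz hzb
    have hzS : z ∈ S := (hmem z).2 (Or.inr (Or.inr hz))
    refine h.cr.be_lt' (hSP hzS) iL.mem hzb iL.nb ?_ (hbe z hzS hzb)
    rintro rfl
    rcases hz with hz | hz
    · exact h.BT hz h.LT
    · exact h.CT hz h.LT
  · intro z hz hzb
    have hzS : z ∈ S := (hmem z).2 (Or.inr (Or.inr hz))
    refine h.cr.ga_lt' (hSP hzS) iR.mem hzb iR.nc ?_ (hga z hzS hzb)
    rintro rfl
    rcases hz with hz | hz
    · exact h.BT hz h.RT
    · exact h.CT hz h.RT
  · intro t ht htL htR hbt hgt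
    have it := h.inT ht
    set S' : Finset (ℝ × ℝ) := insert t S with hS'
    have hS'P : S' ⊆ P := by
      intro z hz
      rcases Finset.mem_insert.1 hz with rfl | hz
      · exact it.mem
      · exact hSP hz
    have hsub : S ⊆ S' := Finset.subset_insert _ _
    have hc' : m + 1 ≤ S'.card := by
      have := Finset.card_le_card hsub
      omega
    have eL' : ExtP S' L := by
      refine h.cr.ext_be_max hS'P (hsub hLS) iL.nb fun z hz hzb => ?_
      rcases Finset.mem_insert.1 hz with rfl | hz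
      · exact hbt.le
      · exact hbe z hz hzb
    have eR' : ExtP S' R := by
      refine h.cr.ext_ga_max hS'P (hsub hRS) iR.nc fun z hz hzb => ?_
      rcases Finset.mem_insert.1 hz with rfl | hz
      · exact hgt.le
      · exact hga z hz hzb
    obtain ⟨e, he, hpos⟩ := exists_ext_pos (S := S') (Finset.mem_insert_self t S) (h.d2 t ht htL htR)
    have hn := D_ne hpos.ne'
    have heb : b ≠ e := by rintro rfl; linarith [h.d2B b h.bB]
    have hec : c ≠ e := by rintro rfl; linarith [h.d2C c h.cC]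
    exact h.thin.five hS'P hc' (ext_b h.cr.cf hS'P (hsub hbS)) (ext_c h.cr.cf hS'P (hsub hcS))
      eL' eR' he (nd5 hbc iL.nb.symm iR.nb.symm heb iL.nc.symm iR.nc.symm hec h.LR
        hn.2.1 hn.2.2)

lemma S1D.boxB (h : S1D s m P T B C a b c v L R tau hh al be ga) (hz : z ∈ B) (hzb : z ≠ b) :
    be z < be L := h.box.1 z (Or.inl hz) hzb

lemma S1D.boxC (h : S1D s m P T B C a b c v L R tau hh al be ga) (hz : z ∈ C) (hzb : z ≠ c) :
    ga z < ga R := h.box.2.1 z (Or.inr hz) hzb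

/-- points of `T` with small `ga` have large `be` -/
lemma S1D.box2 (h : S1D s m P T B C a b c v L R tau hh al be ga) (ht : t ∈ T)
    (hg : ga t < ga R) : be L ≤ be t := by
  by_contra hcon
  have h1 := not_le.1 hcon
  refine h.box.2.2 t ht ?_ ?_ h1 hg
  · rintro rfl; exact lt_irrefl _ h1
  · rintro rfl; exact lt_irrefl _ hg

/-- points of `T` with small `be` have large `ga` -/
lemma S1D.box3 (h : S1D s m P T B C a b c v L R tau hh al be ga) (ht : t ∈ T)
    (hg : be t < be L) : ga R ≤ ga t := by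
  by_contra hcon
  have h1 := not_le.1 hcon
  refine h.box.2.2 t ht ?_ ?_ hg h1
  · rintro rfl; exact lt_irrefl _ hg
  · rintro rfl; exact lt_irrefl _ h1

lemma S1D.bev (h : S1D s m P T B C a b c v L R tau hh al be ga) : be L ≤ be v := by
  rcases h.d3 with h1 | h1
  · rw [h1]
  · exact h1.1.le

lemma S1D.bet (h : S1D s m P T B C a b c v L R tau hh al be ga) : be L ≤ be tau := h.d4 L h.LT

/-- the final configuration of steps 2 and 7 -/
lemma S1D.tau_false (h : S1D s m P T B C a b c v L R tau hh al be ga) {S : Finset (ℝ × ℝ)}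
    (hSP : S ⊆ P) (hc : m + 1 ≤ S.card) (ha : a ∈ S) (hb : b ∈ S) (hv : v ∈ S) (ht : tau ∈ S)
    (hmax : ∀ z ∈ S, z ≠ a → al z ≤ al tau) (hw : ∃ w ∈ B, w ≠ b ∧ w ∈ S)
    (hST : ∀ z ∈ S, z ∈ T → be L ≤ be z) (hSC : ∀ z ∈ S, z ∉ C) : False := by
  obtain ⟨w, hwB, hwb, hwS⟩ := hw
  have it := h.inT h.tT
  have hwL := h.boxB hwB hwb
  obtain ⟨x1, hx1, hx1b, hx1m, hx1e⟩ := h.cr.be_min hSP hwS hwb
  have h1 : be x1 < be L := (hx1m w hwS hwb).trans_lt hwL
  have hx1B : x1 ∈ B := by
    rcases h.cover x1 (hSP hx1) with rfl | h2 | h2 | h2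
    · have := h.cr.be_a (h.inT h.LT).mem (h.inT h.LT).na (h.inT h.LT).nb
      linarith
    · linarith [hST x1 hx1 h2]
    · exact h2
    · exact absurd h2 (hSC x1 hx1)
  have ix := h.inB hx1B hx1b
  obtain ⟨e, he, hneg⟩ := exists_ext_neg (S := S) hv (h.d4B x1 hx1B hx1b v h.vT h.tv.symm)
  have hn := D_ne hneg.ne
  have hea : a ≠ e := by
    rintro rfl
    have := h.cr.la ix.mem it.mem ix.na it.na (h.B1 x1 hx1B tau h.tT).1
    linarith
  have heb : b ≠ e := by
    rintro rfl
    have := h.cr.lb ix.mem it.mem ix.nb it.nb (h1.trans_le h.bet)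
    linarith
  exact h.thin.five hSP hc (ext_a h.cr.cf hSP ha) (ext_b h.cr.cf hSP hb)
    (h.cr.ext_al_max hSP ht it.na hmax) hx1e he
    (nd5 h.cr.cf.ab it.na.symm ix.na.symm hea it.nb.symm ix.nb.symm heb hn.1.symm hn.2.2 hn.2.1)

/-- step 2 -/
lemma S1D.q2 (h : S1D s m P T B C a b c v L R tau hh al be ga) : 2 ≤ C.card := by
  by_contra hcon
  have hC : C = {c} := by
    symm
    apply Finset.eq_of_subset_of_card_le
    · rw [Finset.singleton_subset_iff]; exact h.cC
    · rw [Finset.card_singleton]; omega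
  have hB : 2 ≤ B.card := by
    have h1 := h.hm
    have := h.rq
    rw [hC, Finset.card_singleton] at this
    omega
  have iv := h.inT h.vT
  have it := h.inT h.tT
  have n1 : tau ∉ B := fun hh => h.BT hh h.tT
  have n2 : v ∉ insert tau B := by
    rw [Finset.mem_insert, not_or]
    exact ⟨h.tv.symm, fun hh => h.BT hh h.vT⟩
  have n3 : a ∉ insert v (insert tau B) := by
    rw [Finset.mem_insert, Finset.mem_insert, not_or, not_or]
    exact ⟨iv.na.symm, it.na.symm, h.aB⟩
  have hmem : ∀ z, z ∈ insert a (insert v (insert tau B)) ↔ z = a ∨ z = v ∨ z = tau ∨ z ∈ B := by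
    intro z; simp only [Finset.mem_insert]
  obtain ⟨w, hwB, hwb⟩ := Finset.exists_mem_ne (by omega : 1 < B.card) b
  refine h.tau_false (S := insert a (insert v (insert tau B))) ?_ ?_ ?_ ?_ ?_ ?_ ?_
    ⟨w, hwB, hwb, ?_⟩ ?_ ?_
  · intro z hz
    rcases (hmem z).1 hz with rfl | rfl | rfl | hz
    · exact h.cr.cf.ha
    · exact iv.mem
    · exact it.mem
    · exact h.BP hz
  · rw [Finset.card_insert_of_notMem n3, Finset.card_insert_of_notMem n2,
      Finset.card_insert_of_notMem n1]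
    have := h.rq
    rw [hC, Finset.card_singleton] at this
    omega
  · exact (hmem a).2 (Or.inl rfl)
  · exact (hmem b).2 (Or.inr (Or.inr (Or.inr h.bB)))
  · exact (hmem v).2 (Or.inr (Or.inl rfl))
  · exact (hmem tau).2 (Or.inr (Or.inr (Or.inl rfl)))
  · intro z hz hza
    rcases (hmem z).1 hz with rfl | rfl | rfl | hz
    · exact absurd rfl hza
    · exact (h.d1 tau h.tT).1
    · exact le_rfl
    · exact (h.B1 z hz tau h.tT).1.le
  · exact (hmem w).2 (Or.inr (Or.inr (Or.inr hwB)))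
  · intro z hz hzT
    rcases (hmem z).1 hz with rfl | rfl | rfl | hz
    · exact absurd hzT h.aT
    · exact h.bev
    · exact h.bet
    · exact absurd hzT (h.BT hz)
  · intro z hz
    rcases (hmem z).1 hz with rfl | rfl | rfl | hz
    · exact h.aC
    · exact fun hh => h.CT hh h.vT
    · exact fun hh => h.CT hh h.tT
    · exact h.BC hz

/-- step 3 -/
lemma S1D.r2 (h : S1D s m P T B C a b c v L R tau hh al be ga) : 2 ≤ B.card := by
  by_contra hcon
  have hB : B = {b} := by
    symm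
    apply Finset.eq_of_subset_of_card_le
    · rw [Finset.singleton_subset_iff]; exact h.bB
    · rw [Finset.card_singleton]; omega
  have hC : C.card = m - 1 := by
    have := h.rq
    rw [hB, Finset.card_singleton] at this
    omega
  have hm := h.hm
  have iR := h.inT h.RT
  have ih := h.inT h.hT
  have n1 : R ∉ C := fun hh => h.CT hh h.RT
  have n2 : hh ∉ insert R C := by
    rw [Finset.mem_insert, not_or]
    exact ⟨h.hR, fun hh => h.CT hh h.hT⟩
  have n3 : a ∉ insert hh (insert R C) := by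
    rw [Finset.mem_insert, Finset.mem_insert, not_or, not_or]
    exact ⟨ih.na.symm, iR.na.symm, h.aC⟩
  set S : Finset (ℝ × ℝ) := insert a (insert hh (insert R C)) with hS
  have hmem : ∀ z, z ∈ S ↔ z = a ∨ z = hh ∨ z = R ∨ z ∈ C := by
    intro z; simp only [hS, Finset.mem_insert]
  have hSP : S ⊆ P := by
    intro z hz
    rcases (hmem z).1 hz with rfl | rfl | rfl | hz
    · exact h.cr.cf.ha
    · exact ih.mem
    · exact iR.mem
    · exact h.CP hz
  have hcard : m + 1 ≤ S.card := by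
    rw [hS, Finset.card_insert_of_notMem n3, Finset.card_insert_of_notMem n2,
      Finset.card_insert_of_notMem n1]
    omega
  obtain ⟨w, hwC, hwc⟩ := Finset.exists_mem_ne (by omega : 1 < C.card) c
  have hwS : w ∈ S := (hmem w).2 (Or.inr (Or.inr (Or.inr hwC)))
  have hwR := h.boxC hwC hwc
  obtain ⟨y1, hy1, hy1c, hy1m, hy1e⟩ := h.cr.ga_min hSP hwS hwc
  have h1 : ga y1 < ga R := (hy1m w hwS hwc).trans_lt hwR
  have hy1C : y1 ∈ C := by
    rcases (hmem y1).1 hy1 with rfl | rfl | rfl | hz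
    · have := h.cr.ga_a iR.mem iR.na iR.nc
      linarith
    · linarith [h.d5]
    · linarith
    · exact hz
  have iy := h.inC hy1C hy1c
  -- `R` is on the left of `y1 hh`
  have hpos : 0 < D s y1 hh R := by
    rw [D_swap13]
    linarith [h.d5C y1 hy1C]
  obtain ⟨e, he, hpe⟩ := exists_ext_pos (S := S) ((hmem R).2 (Or.inr (Or.inr (Or.inl rfl)))) hpos
  have hn := D_ne hpe.ne'
  have hea : a ≠ e := by
    rintro rfl
    have := h.cr.ra iy.mem ih.mem iy.na ih.na (h.C1 y1 hy1C hh h.hT).1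
    linarith
  have hec : c ≠ e := by
    rintro rfl
    have := h.cr.rc iy.mem ih.mem iy.nc ih.nc (h1.trans h.d5)
    linarith
  have eh : ExtP S hh := by
    refine h.cr.ext_al_min hSP ((hmem hh).2 (Or.inr (Or.inl rfl))) ih.na fun z hz hza => ?_
    rcases (hmem z).1 hz with rfl | rfl | rfl | hz
    · exact absurd rfl hza
    · exact le_rfl
    · exact (h.d1 hh h.hT).2
    · exact (h.C1 z hz hh h.hT).1.le
  exact h.thin.five hSP hcard (ext_a h.cr.cf hSP ((hmem a).2 (Or.inl rfl)))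
    (ext_c h.cr.cf hSP ((hmem c).2 (Or.inr (Or.inr (Or.inr h.cC))))) eh hy1e he
    (nd5 h.cr.cf.ca.symm ih.na.symm iy.na.symm hea ih.nc.symm iy.nc.symm hec hn.1.symm hn.2.2
      hn.2.1)

/-! ### step 4: the rank function -/

/-- the rank of `u` in `T` -/
noncomputable def rk (T : Finset (ℝ × ℝ)) (al : ℝ × ℝ → ℝ) (u : ℝ × ℝ) : ℕ :=
  (T.filter (fun t => al t ≤ al u)).card

/-- the lower half plane through `a` and `u` -/
noncomputable def Ls (T B : Finset (ℝ × ℝ)) (a : ℝ × ℝ) (al : ℝ × ℝ → ℝ) (u : ℝ × ℝ) :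
    Finset (ℝ × ℝ) :=
  insert a (B ∪ T.filter (fun t => al t ≤ al u))

/-- the upper half plane through `a` and `u` -/
noncomputable def Rs (T C : Finset (ℝ × ℝ)) (a : ℝ × ℝ) (al : ℝ × ℝ → ℝ) (u : ℝ × ℝ) :
    Finset (ℝ × ℝ) :=
  insert a (C ∪ T.filter (fun t => al u ≤ al t))

lemma mem_Ls : z ∈ Ls T B a al u ↔ z = a ∨ z ∈ B ∨ (z ∈ T ∧ al z ≤ al u) := by
  unfold Ls
  simp only [Finset.mem_insert, Finset.mem_union, Finset.mem_filter]

lemma mem_Rs : z ∈ Rs T C a al u ↔ z = a ∨ z ∈ C ∨ (z ∈ T ∧ al u ≤ al z) := by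
  unfold Rs
  simp only [Finset.mem_insert, Finset.mem_union, Finset.mem_filter]

lemma S1D.Ls_sub (h : S1D s m P T B C a b c v L R tau hh al be ga) : Ls T B a al u ⊆ P := by
  intro z hz
  rcases mem_Ls.1 hz with rfl | hz | hz
  · exact h.cr.cf.ha
  · exact h.BP hz
  · exact h.TP hz.1

lemma S1D.Rs_sub (h : S1D s m P T B C a b c v L R tau hh al be ga) : Rs T C a al u ⊆ P := by
  intro z hz
  rcases mem_Rs.1 hz with rfl | hz | hz
  · exact h.cr.cf.ha
  · exact h.CP hz
  · exact h.TP hz.1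

lemma S1D.Ls_card (h : S1D s m P T B C a b c v L R tau hh al be ga) :
    (Ls T B a al u).card = 1 + B.card + rk T al u := by
  unfold Ls rk
  rw [Finset.card_insert_of_notMem, Finset.card_union_of_disjoint]
  · omega
  · rw [Finset.disjoint_left]
    intro z hz hz'
    exact h.BT hz (Finset.mem_filter.1 hz').1
  · rw [Finset.mem_union, not_or, Finset.mem_filter, not_and]
    exact ⟨h.aB, fun hh => absurd hh h.aT⟩

lemma S1D.Rs_card (h : S1D s m P T B C a b c v L R tau hh al be ga) (hu : u ∈ T) :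
    (Rs T C a al u).card + rk T al u = C.card + m + 2 := by
  have h1 : (Rs T C a al u).card = 1 + (C.card + (T.filter (fun t => al u ≤ al t)).card) := by
    unfold Rs
    rw [Finset.card_insert_of_notMem, Finset.card_union_of_disjoint]
    · omega
    · rw [Finset.disjoint_left]
      intro z hz hz'
      exact h.CT hz (Finset.mem_filter.1 hz').1
    · rw [Finset.mem_union, not_or, Finset.mem_filter, not_and]
      exact ⟨h.aC, fun hh => absurd hh h.aT⟩
  have h2 : (T.filter (fun t => al u ≤ al t)).card + (T.filter (fun t => al t ≤ al u)).card =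
      T.card + 1 := by
    rw [← Finset.card_union_add_card_inter]
    have e1 : T.filter (fun t => al u ≤ al t) ∪ T.filter (fun t => al t ≤ al u) = T := by
      ext z
      simp only [Finset.mem_union, Finset.mem_filter]
      constructor
      · rintro (h | h) <;> exact h.1
      · intro h
        rcases le_total (al u) (al z) with h' | h'
        · exact Or.inl ⟨h, h'⟩
        · exact Or.inr ⟨h, h'⟩
    have e2 : T.filter (fun t => al u ≤ al t) ∩ T.filter (fun t => al t ≤ al u) = {u} := by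
      ext z
      simp only [Finset.mem_inter, Finset.mem_filter, Finset.mem_singleton]
      constructor
      · rintro ⟨⟨hz, h1⟩, ⟨_, h2⟩⟩
        by_contra hne
        exact h.cr.al_ne (h.inT hz).mem (h.inT hu).mem (h.inT hz).na (h.inT hu).na hne
          (le_antisymm h2 h1)
      · rintro rfl
        exact ⟨⟨hu, le_rfl⟩, ⟨hu, le_rfl⟩⟩
    rw [e1, e2, Finset.card_singleton]
  have h3 := h.Tm
  unfold rk
  omega

lemma S1D.al_inj (h : S1D s m P T B C a b c v L R tau hh al be ga) (hx : x ∈ T) (hy : y ∈ T)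
    (he : al x = al y) : x = y := by
  by_contra hne
  exact h.cr.al_ne (h.inT hx).mem (h.inT hy).mem (h.inT hx).na (h.inT hy).na hne he

lemma rk_mono (hxy : al x ≤ al y) : rk T al x ≤ rk T al y := by
  apply Finset.card_le_card
  intro z hz
  rw [Finset.mem_filter] at hz ⊢
  exact ⟨hz.1, hz.2.trans hxy⟩

lemma rk_lt (hy : y ∈ T) (hxy : al x < al y) : rk T al x < rk T al y := by
  apply Finset.card_lt_card
  rw [Finset.ssubset_iff_of_subset]
  · refine ⟨y, ?_, ?_⟩
    · rw [Finset.mem_filter]; exact ⟨hy, le_rfl⟩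
    · rw [Finset.mem_filter, not_and]; exact fun _ => not_le.2 hxy
  · intro z hz
    rw [Finset.mem_filter] at hz ⊢
    exact ⟨hz.1, hz.2.trans hxy.le⟩

lemma al_le_of_rk (hx : x ∈ T) (hr : rk T al x ≤ rk T al y) : al x ≤ al y := by
  by_contra hcon
  have := rk_lt (al := al) hx (not_le.1 hcon)
  omega

lemma al_lt_of_rk (hr : rk T al x < rk T al y) : al x < al y := by
  by_contra hcon
  have := rk_mono (T := T) (al := al) (not_lt.1 hcon)
  omega

lemma S1D.rkR (h : S1D s m P T B C a b c v L R tau hh al be ga) : rk T al R = m := by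
  rw [← h.Tm]
  unfold rk
  congr 1
  apply Finset.filter_true_of_mem
  intro t ht
  exact (h.d1 t ht).2

lemma S1D.rkv (h : S1D s m P T B C a b c v L R tau hh al be ga) : rk T al v = 1 := by
  unfold rk
  rw [Finset.card_eq_one]
  refine ⟨v, ?_⟩
  ext z
  rw [Finset.mem_filter, Finset.mem_singleton]
  constructor
  · rintro ⟨hz, h1⟩
    exact h.al_inj hz h.vT (le_antisymm h1 (h.d1 z hz).1)
  · rintro rfl
    exact ⟨h.vT, le_rfl⟩

lemma S1D.exists_rk (h : S1D s m P T B C a b c v L R tau hh al be ga) {k : ℕ} (h1 : 1 ≤ k)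
    (h2 : k ≤ m) : ∃ u ∈ T, rk T al u = k := by
  have himg : T.image (rk T al) = Finset.Icc 1 m := by
    apply Finset.eq_of_subset_of_card_le
    · intro n hn
      rw [Finset.mem_image] at hn
      obtain ⟨u, hu, rfl⟩ := hn
      rw [Finset.mem_Icc]
      constructor
      · apply Finset.card_pos.2
        exact ⟨u, Finset.mem_filter.2 ⟨hu, le_rfl⟩⟩
      · rw [← h.Tm]
        exact Finset.card_filter_le _ _
    · rw [Nat.card_Icc, Finset.card_image_of_injOn, h.Tm]
      · omega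
      · intro x hx y hy hxy
        exact h.al_inj hx hy (le_antisymm (al_le_of_rk hx hxy.le) (al_le_of_rk hy hxy.ge))
  have : k ∈ T.image (rk T al) := by
    rw [himg, Finset.mem_Icc]; exact ⟨h1, h2⟩
  rw [Finset.mem_image] at this
  exact this

end

end Pool.Agent.G5.S1
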