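import Pool.Agent.Lib_helper32.G5.S1a

/-!
# MP_022ed3_co, triangular hull, module S1: steps 5 to 10
-/

set_option autoImplicit false

namespace Pool.Agent.G5.S1

open Pool.Agent.G5.Lower Pool.Agent.G5.Planar Pool.Agent.G5.Core Pool.Agent.G5.Frame
open Pool.Agent.G5.Coord

section

variable {s : ℝ} {m : ℕ} {P T B C : Finset (ℝ × ℝ)} {a b c v L R tau hh : ℝ × ℝ}
  {al be ga : ℝ × ℝ → ℝ} {t u x y z x0 : ℝ × ℝ}

lemma S1D.exB (h : S1D s m P T B C a b c v L R tau hh al be ga) : ∃ w ∈ B, w ≠ b :=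
  Finset.exists_mem_ne (by have := h.r2; omega : 1 < B.card) b

lemma S1D.exC (h : S1D s m P T B C a b c v L R tau hh al be ga) : ∃ w ∈ C, w ≠ c :=
  Finset.exists_mem_ne (by have := h.q2; omega : 1 < C.card) c

lemma S1D.not_mem_of_pos (h : S1D s m P T B C a b c v L R tau hh al be ga) {p q : ℝ × ℝ}
    (hp : p ∈ P) (hq : q ∈ P) (hz : z ∈ P) (hpq : p ≠ q) (hzp : z ≠ p) (hzq : z ≠ q)
    (hn : ¬ 0 < D s p q z) : D s p q z < 0 :=
  lt_of_le_of_ne (not_lt.1 hn) (h.cr.cf.gen.D_ne h.cr.cf.hs hp hq hz hpq hzp.symm hzq.symm)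

lemma S1D.pos_of_not (h : S1D s m P T B C a b c v L R tau hh al be ga) {p q : ℝ × ℝ}
    (hp : p ∈ P) (hq : q ∈ P) (hz : z ∈ P) (hpq : p ≠ q) (hzp : z ≠ p) (hzq : z ≠ q)
    (hn : ¬ D s p q z < 0) : 0 < D s p q z :=
  lt_of_le_of_ne (not_lt.1 hn) (h.cr.cf.gen.D_ne h.cr.cf.hs hp hq hz hpq hzp.symm hzq.symm).symm

/-- step 5, `V3` -/
lemma S1D.v3 (h : S1D s m P T B C a b c v L R tau hh al be ga) (ht : t ∈ T) (htR : t ≠ R)
    (hal : al t < al R) (hbe : be t < be L) (hga : ga R < ga t) (hbR : be R < be t)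
    (hy : y ∈ C) (hyc : y ≠ c) : D s R t y < 0 := by
  have it := h.inT ht
  have iR := h.inT h.RT
  have iL := h.inT h.LT
  have iy := h.inC hy hyc
  have la := h.cr.ra iR.mem it.mem iR.na it.na hal
  have lb := h.cr.lb iR.mem it.mem iR.nb it.nb hbR
  have lc := h.cr.rc iR.mem it.mem iR.nc it.nc hga
  have htL : t ≠ L := by rintro rfl; exact lt_irrefl _ hbe
  have lL : 0 < D s R t L := by
    rw [D_cyc]; exact h.d2 t ht htL htR
  by_contra hcon
  have hRt := iR.mem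
  have hsc := sides_card h.cr.cf iR.mem it.mem htR.symm
  have hPc := h.card
  -- left side is light
  have hlight : (Lf s P R t).card ≤ m := by
    by_contra hc
    have hRm : R ∈ Lf s P R t := mem_Lf.2 ⟨iR.mem, by simp⟩
    have hym : y ∈ Lf s P R t := mem_Lf.2 ⟨iy.mem, not_lt.1 hcon⟩
    have hLm : L ∈ Lf s P R t := mem_Lf.2 ⟨iL.mem, lL.le⟩
    have hbm : b ∈ Lf s P R t := mem_Lf.2 ⟨h.cr.cf.hb, lb.le⟩
    obtain ⟨z0, hz0, hz0b, hz0m, hz0e⟩ := h.cr.be_min Lf_sub hRm iR.nb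
    obtain ⟨z1, hz1, hz1b, hz1m, hz1e⟩ := h.cr.be_max Lf_sub hRm iR.nb
    have e1 := hz0m y hym iy.nb
    have e2 := hz1m L hLm iL.nb
    have e3 := (h.C1 y hy R h.RT).2
    exact h.thin.five Lf_sub (by omega) (ext_b h.cr.cf Lf_sub hbm) (Lf_p h.cr.cf iR.mem it.mem htR.symm)
      (Lf_q h.cr.cf iR.mem it.mem htR.symm) hz0e hz1e
      (nd5 iR.nb.symm it.nb.symm hz0b.symm hz1b.symm htR.symm
        (by rintro rfl; linarith) (by rintro rfl; linarith) (by rintro rfl; linarith)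
        (by rintro rfl; linarith) (by rintro rfl; linarith))
  -- the right side
  have ham : a ∈ Rt s P R t := mem_Rt.2 ⟨h.cr.cf.ha, la.le⟩
  have hcm : c ∈ Rt s P R t := mem_Rt.2 ⟨h.cr.cf.hc, lc.le⟩
  have hCn : ∀ y' ∈ C, y' ≠ c → y' ∉ Rt s P R t := by
    intro y' hy' hyc' hmem
    obtain ⟨w0, hw0, hw0c, hw0m, hw0e⟩ := h.cr.ga_min Rt_sub hmem hyc'
    have e1 := hw0m y' hmem hyc'
    have e2 := h.boxC hy' hyc'
    have e3 := h.cr.ga_a iR.mem iR.na iR.nc
    exact h.thin.five Rt_sub (by omega) (ext_a h.cr.cf Rt_sub ham) (ext_c h.cr.cf Rt_sub hcm)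
      (Rt_p h.cr.cf iR.mem it.mem htR.symm) (Rt_q h.cr.cf iR.mem it.mem htR.symm) hw0e
      (nd5 h.cr.cf.ca.symm iR.na.symm it.na.symm (by rintro rfl; linarith)
        iR.nc.symm it.nc.symm hw0c.symm htR.symm (by rintro rfl; linarith)
        (by rintro rfl; linarith))
  have hsub : Rt s P R t ⊆ insert a (insert c T) := by
    intro z hz
    have hz' := mem_Rt.1 hz
    rw [Finset.mem_insert, Finset.mem_insert]
    rcases h.cover z hz'.1 with hza | hzT | hzB | hzC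
    · exact Or.inl hza
    · exact Or.inr (Or.inr hzT)
    · exfalso
      have hza : z ≠ a := by rintro rfl; exact h.aB hzB
      have hzc : z ≠ c := by rintro rfl; exact h.BC hzB h.cC
      have := h.cr.oppb (w := t) iR hz'.1 hza hzc (h.B1 z hzB R h.RT).1 (h.B1 z hzB R h.RT).2 la lc
      linarith [hz'.2]
    · by_cases hzc : z = c
      · exact Or.inr (Or.inl hzc)
      · exact absurd hz (hCn z hzC hzc)
  have h1 := Finset.card_le_card hsub
  have h2 := Finset.card_insert_le a (insert c T)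
  have h3 := Finset.card_insert_le c T
  have h4 := h.Tm
  omega

/-- step 5, `LOW` -/
lemma S1D.low (h : S1D s m P T B C a b c v L R tau hh al be ga) (ht : t ∈ T)
    (hr : rk T al t ≤ C.card + 1) : be L ≤ be t := by
  by_contra hcon
  have hbe : be t < be L := not_le.1 hcon
  have hq := h.q2
  have hr2 := h.r2
  have hrq := h.rq
  have hrR := h.rkR
  have htR : t ≠ R := by
    rintro rfl
    omega
  have it := h.inT ht
  have iR := h.inT h.RT
  have iL := h.inT h.LT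
  have hal : al t < al R := h.cr.al_lt' it.mem iR.mem it.na iR.na htR (h.d1 t ht).2
  have hga : ga R < ga t :=
    h.cr.ga_lt' iR.mem it.mem iR.nc it.nc htR.symm (h.box3 ht hbe)
  have hbR : be R < be t := h.cr.ceva_be it iR hal hga
  have hRsc := h.Rs_card ht
  have hRm : R ∈ Rs T C a al t := mem_Rs.2 (Or.inr (Or.inr ⟨h.RT, hal.le⟩))
  have hcm : c ∈ Rs T C a al t := mem_Rs.2 (Or.inr (Or.inl h.cC))
  have ham : a ∈ Rs T C a al t := mem_Rs.2 (Or.inl rfl)
  have htm : t ∈ Rs T C a al t := mem_Rs.2 (Or.inr (Or.inr ⟨ht, le_rfl⟩))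
  obtain ⟨x0, hx0, hx0c, hx0m, hx0e⟩ := h.cr.ga_min h.Rs_sub hRm iR.nc
  obtain ⟨y, hy, hyc⟩ := h.exC
  have e1 : ga x0 < ga R :=
    (hx0m y (mem_Rs.2 (Or.inr (Or.inl hy))) hyc).trans_lt (h.boxC hy hyc)
  have e2 := h.cr.ga_a iR.mem iR.na iR.nc
  rcases mem_Rs.1 hx0 with hx0a | hx0C | ⟨hx0T, hx0al⟩
  · rw [hx0a] at e1; linarith
  · have ix := h.inC hx0C hx0c
    have hv3 := h.v3 ht htR hal hbe hga hbR hx0C hx0c
    have hpos : 0 < D s x0 t R := by
      rw [D_swap', D_cyc']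
      linarith
    obtain ⟨e, he, hpe⟩ := exists_ext_pos hRm hpos
    have hn := D_ne hpe.ne'
    have hea : a ≠ e := by
      rintro rfl
      have := h.cr.ra ix.mem it.mem ix.na it.na (h.C1 x0 hx0C t ht).1
      linarith
    have hec : c ≠ e := by
      rintro rfl
      have := h.cr.rc ix.mem it.mem ix.nc it.nc (e1.trans hga)
      linarith
    have et : ExtP (Rs T C a al t) t := by
      refine h.cr.ext_al_min h.Rs_sub htm it.na fun z hz hza => ?_
      rcases mem_Rs.1 hz with hz1 | hz1 | hz1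
      · exact absurd hz1 hza
      · exact (h.C1 z hz1 t ht).1.le
      · exact hz1.2
    exact h.thin.five h.Rs_sub (by omega) (ext_a h.cr.cf h.Rs_sub ham)
      (ext_c h.cr.cf h.Rs_sub hcm) et hx0e he
      (nd5 h.cr.cf.ca.symm it.na.symm ix.na.symm hea it.nc.symm ix.nc.symm hec hn.1.symm hn.2.2
        hn.2.1)
  · have ix := h.inT hx0T
    have e3 := h.box2 hx0T e1
    have hne : x0 ≠ t := by rintro rfl; linarith
    have e4 := h.cr.ceva_be it ix (h.cr.al_lt' it.mem ix.mem it.na ix.na hne.symm hx0al)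
      (e1.trans hga)
    linarith

/-- step 7 -/
lemma S1D.rk_tau (h : S1D s m P T B C a b c v L R tau hh al be ga) : rk T al tau < C.card := by
  by_contra hcon
  have hq := h.q2
  have hr2 := h.r2
  have hrq := h.rq
  obtain ⟨u0, hu0, hru0⟩ := h.exists_rk (k := C.card) (by omega) (by omega)
  have hut : al u0 ≤ al tau := al_le_of_rk hu0 (by omega)
  have it := h.inT h.tT
  have hsc := h.Ls_card (u := u0)
  obtain ⟨w, hwB, hwb⟩ := h.exB
  have hsub : Ls T B a al u0 ⊆ insert tau (Ls T B a al u0) := Finset.subset_insert _ _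
  have hmono := Finset.card_le_card hsub
  refine h.tau_false (S := insert tau (Ls T B a al u0)) ?_ (by omega) ?_ ?_ ?_ ?_ ?_
    ⟨w, hwB, hwb, ?_⟩ ?_ ?_
  · intro z hz
    rcases Finset.mem_insert.1 hz with rfl | hz
    · exact it.mem
    · exact h.Ls_sub hz
  · exact hsub (mem_Ls.2 (Or.inl rfl))
  · exact hsub (mem_Ls.2 (Or.inr (Or.inl h.bB)))
  · exact hsub (mem_Ls.2 (Or.inr (Or.inr ⟨h.vT, (h.d1 u0 hu0).1⟩)))
  · exact Finset.mem_insert_self _ _
  · intro z hz hza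
    rcases Finset.mem_insert.1 hz with rfl | hz
    · exact le_rfl
    · rcases mem_Ls.1 hz with hz1 | hz1 | hz1
      · exact absurd hz1 hza
      · exact (h.B1 z hz1 tau h.tT).1.le
      · exact hz1.2.trans hut
  · exact hsub (mem_Ls.2 (Or.inr (Or.inl hwB)))
  · intro z hz hzT
    rcases Finset.mem_insert.1 hz with rfl | hz
    · exact h.bet
    · rcases mem_Ls.1 hz with hz1 | hz1 | hz1
      · rw [hz1] at hzT; exact absurd hzT h.aT
      · exact absurd hzT (h.BT hz1)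
      · apply h.low hzT
        have := rk_mono (T := T) hz1.2
        omega
  · intro z hz
    rcases Finset.mem_insert.1 hz with rfl | hz
    · exact fun hh => h.CT hh h.tT
    · rcases mem_Ls.1 hz with hz1 | hz1 | hz1
      · rw [hz1]; exact h.aC
      · exact h.BC hz1
      · exact fun hh => h.CT hh hz1.1

/-- step 8: the point `y0` -/
lemma S1D.ey0 (h : S1D s m P T B C a b c v L R tau hh al be ga) (hu : u ∈ T)
    (h1 : C.card ≤ rk T al u) (h2 : rk T al u ≤ C.card + 1) :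
    ∃ y0 ∈ B, y0 ≠ b ∧ ∀ z ∈ Ls T B a al u, z ≠ y0 → z ≠ u → 0 < D s y0 u z := by
  have hrq := h.rq
  have hsc := h.Ls_card (u := u)
  obtain ⟨w, hwB, hwb⟩ := h.exB
  have iu := h.inT hu
  have iL := h.inT h.LT
  have hwm : w ∈ Ls T B a al u := mem_Ls.2 (Or.inr (Or.inl hwB))
  obtain ⟨y0, hy0, hy0b, hy0m, hy0e⟩ := h.cr.be_min h.Ls_sub hwm hwb
  have e1 : be y0 < be L := (hy0m w hwm hwb).trans_lt (h.boxB hwB hwb)
  have hy0B : y0 ∈ B := by
    rcases mem_Ls.1 hy0 with h3 | h3 | h3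
    · rw [h3] at e1
      have := h.cr.be_a iL.mem iL.na iL.nb
      linarith
    · exact h3
    · have := h.low h3.1 (by have := rk_mono (T := T) h3.2; omega)
      linarith
  have iy := h.inB hy0B hy0b
  refine ⟨y0, hy0B, hy0b, fun z hz hz1 hz2 => ?_⟩
  have hyu : y0 ≠ u := by rintro rfl; exact h.BT hy0B hu
  by_contra hcon
  have hneg := h.not_mem_of_pos iy.mem iu.mem (h.Ls_sub hz) hyu hz1 hz2 hcon
  obtain ⟨e, he, hne⟩ := exists_ext_neg hz hneg
  have hn := D_ne hne.ne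
  have hlow := h.low hu h2
  have hea : a ≠ e := by
    rintro rfl
    have := h.cr.la iy.mem iu.mem iy.na iu.na (h.B1 y0 hy0B u hu).1
    linarith
  have heb : b ≠ e := by
    rintro rfl
    have := h.cr.lb iy.mem iu.mem iy.nb iu.nb (e1.trans_le hlow)
    linarith
  have eu : ExtP (Ls T B a al u) u := by
    refine h.cr.ext_al_max h.Ls_sub (mem_Ls.2 (Or.inr (Or.inr ⟨hu, le_rfl⟩))) iu.na
      fun z hz hza => ?_
    rcases mem_Ls.1 hz with hz1 | hz1 | hz1
    · exact absurd hz1 hza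
    · exact (h.B1 z hz1 u hu).1.le
    · exact hz1.2
  exact h.thin.five h.Ls_sub (by omega) (ext_a h.cr.cf h.Ls_sub (mem_Ls.2 (Or.inl rfl)))
    (ext_b h.cr.cf h.Ls_sub (mem_Ls.2 (Or.inr (Or.inl h.bB)))) eu hy0e he
    (nd5 h.cr.cf.ab iu.na.symm iy.na.symm hea iu.nb.symm hy0b.symm heb hyu.symm hn.2.2 hn.2.1)

/-- extremality of `u` in `Rs u` -/
lemma S1D.Rs_u (h : S1D s m P T B C a b c v L R tau hh al be ga) (hu : u ∈ T) :
    ExtP (Rs T C a al u) u := by
  refine h.cr.ext_al_min h.Rs_sub (mem_Rs.2 (Or.inr (Or.inr ⟨hu, le_rfl⟩))) (h.inT hu).na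
    fun z hz hza => ?_
  rcases mem_Rs.1 hz with hz1 | hz1 | hz1
  · exact absurd hz1 hza
  · exact (h.C1 z hz1 u hu).1.le
  · exact hz1.2

/-- all points of `Rs u` are on the right of `x0 u` -/
lemma S1D.Rs_right (h : S1D s m P T B C a b c v L R tau hh al be ga) (hu : u ∈ T)
    (h2 : rk T al u ≤ C.card + 1) (hx0P : In P a b c x0) (hx0e : ExtP (Rs T C a al u) x0)
    (hal : al u < al x0) (hga : ga x0 < ga u) (hz : z ∈ Rs T C a al u) (hz1 : z ≠ x0)
    (hz2 : z ≠ u) : D s x0 u z < 0 := by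
  have hsc := h.Rs_card hu
  have iu := h.inT hu
  have hxu : x0 ≠ u := by rintro rfl; exact lt_irrefl _ hal
  by_contra hcon
  have hpos := h.pos_of_not hx0P.mem iu.mem (h.Rs_sub hz) hxu hz1 hz2 hcon
  obtain ⟨e, he, hne⟩ := exists_ext_pos hz hpos
  have hn := D_ne hne.ne'
  have hea : a ≠ e := by
    rintro rfl
    have := h.cr.ra hx0P.mem iu.mem hx0P.na iu.na hal
    linarith
  have hec : c ≠ e := by
    rintro rfl
    have := h.cr.rc hx0P.mem iu.mem hx0P.nc iu.nc hga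
    linarith
  exact h.thin.five h.Rs_sub (by omega) (ext_a h.cr.cf h.Rs_sub (mem_Rs.2 (Or.inl rfl)))
    (ext_c h.cr.cf h.Rs_sub (mem_Rs.2 (Or.inr (Or.inl h.cC)))) (h.Rs_u hu) hx0e he
    (nd5 h.cr.cf.ca.symm iu.na.symm hx0P.na.symm hea iu.nc.symm hx0P.nc.symm hec hxu.symm hn.2.2
      hn.2.1)

/-- step 8, `X5` -/
lemma S1D.ex0 (h : S1D s m P T B C a b c v L R tau hh al be ga) (hu : u ∈ T)
    (h1 : C.card ≤ rk T al u) (h2 : rk T al u ≤ C.card + 1) :
    ∃ x0 ∈ Rs T C a al u, x0 ≠ c ∧ (∀ z ∈ Rs T C a al u, z ≠ c → ga x0 ≤ ga z) ∧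
      ExtP (Rs T C a al u) x0 ∧ (x0 = u ∨ x0 ∈ C) := by
  have iu := h.inT hu
  have hum : u ∈ Rs T C a al u := mem_Rs.2 (Or.inr (Or.inr ⟨hu, le_rfl⟩))
  obtain ⟨x0, hx0, hx0c, hx0m, hx0e⟩ := h.cr.ga_min h.Rs_sub hum iu.nc
  refine ⟨x0, hx0, hx0c, hx0m, hx0e, ?_⟩
  rcases mem_Rs.1 hx0 with h3 | h3 | ⟨h3, h3'⟩
  · exfalso
    have e1 := hx0m u hum iu.nc
    rw [h3] at e1
    have := h.cr.ga_a iu.mem iu.na iu.nc
    linarith
  · exact Or.inr h3
  by_contra hcon
  rw [not_or] at hcon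
  obtain ⟨hxu, -⟩ := hcon
  have ix := h.inT h3
  have hal : al u < al x0 := h.cr.al_lt' iu.mem ix.mem iu.na ix.na (Ne.symm hxu) h3'
  have hga : ga x0 < ga u := h.cr.ga_lt' ix.mem iu.mem ix.nc iu.nc hxu (hx0m u hum iu.nc)
  obtain ⟨y, hy, hyc⟩ := h.exC
  have e1 : ga x0 < ga R :=
    (hx0m y (mem_Rs.2 (Or.inr (Or.inl hy))) hyc).trans_lt (h.boxC hy hyc)
  have e2 := h.box2 h3 e1
  have e3 := h.cr.ceva_be iu ix hal hga
  have hsc := h.Rs_card hu
  have hRd : Rs T C a al u ⊆ Rt s P x0 u := by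
    intro z hz
    refine mem_Rt.2 ⟨h.Rs_sub hz, ?_⟩
    by_cases hz1 : z = x0
    · rw [hz1]; simp
    by_cases hz2 : z = u
    · rw [hz2]; simp
    exact (h.Rs_right hu h2 ix hx0e hal hga hz hz1 hz2).le
  have hdR : Rt s P x0 u ⊆ Rs T C a al u := by
    intro z hz
    have hz' := mem_Rt.1 hz
    by_contra hzn
    have hza : z ≠ a := by rintro rfl; exact hzn (mem_Rs.2 (Or.inl rfl))
    have halz : al z < al u := by
      rcases h.cover z hz'.1 with k | k | k | k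
      · exact absurd k hza
      · by_contra hc
        exact hzn (mem_Rs.2 (Or.inr (Or.inr ⟨k, not_lt.1 hc⟩)))
      · exact (h.B1 z k u hu).1
      · exact absurd (mem_Rs.2 (Or.inr (Or.inl k))) hzn
    obtain ⟨w0, hw0, hw0a, hw0m, hw0e⟩ := h.cr.al_min Rt_sub hz hza
    have e4 := hw0m z hz hza
    have hac := h.cr.al_c iu.mem iu.na iu.nc
    have hcc := Finset.card_le_card hRd
    exact h.thin.five Rt_sub (by omega)
      (ext_a h.cr.cf Rt_sub (hRd (mem_Rs.2 (Or.inl rfl))))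
      (ext_c h.cr.cf Rt_sub (hRd (mem_Rs.2 (Or.inr (Or.inl h.cC)))))
      (Rt_p h.cr.cf ix.mem iu.mem hxu) (Rt_q h.cr.cf ix.mem iu.mem hxu) hw0e
      (nd5 h.cr.cf.ca.symm ix.na.symm iu.na.symm hw0a.symm ix.nc.symm iu.nc.symm
        (by rintro rfl; linarith) hxu (by rintro rfl; linarith) (by rintro rfl; linarith))
  have heq : Rt s P x0 u = Rs T C a al u := Finset.Subset.antisymm hdR hRd
  have hsides := sides_card h.cr.cf ix.mem iu.mem hxu
  rw [heq] at hsides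
  have hPc := h.card
  have hleft : ∀ z ∈ P, z ∉ Rs T C a al u → z ∈ Lf s P x0 u := by
    intro z hz hzn
    refine mem_Lf.2 ⟨hz, ?_⟩
    by_contra hc
    apply hzn
    rw [← heq]
    exact mem_Rt.2 ⟨hz, (not_le.1 hc).le⟩
  have itau := h.inT h.tT
  have htau : al tau < al u := al_lt_of_rk (T := T) (by have := h.rk_tau; omega)
  have htm : tau ∈ Lf s P x0 u := by
    apply hleft tau itau.mem
    intro hmem
    rcases mem_Rs.1 hmem with k | k | k
    · exact itau.na k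
    · exact h.CT k h.tT
    · linarith [k.2]
  obtain ⟨w, hwB, hwb⟩ := h.exB
  have iw := h.inB hwB hwb
  have hwm : w ∈ Lf s P x0 u := by
    apply hleft w iw.mem
    intro hmem
    rcases mem_Rs.1 hmem with k | k | k
    · exact iw.na k
    · exact h.BC hwB k
    · exact h.BT hwB k.1
  have hbm : b ∈ Lf s P x0 u :=
    mem_Lf.2 ⟨h.cr.cf.hb, (h.cr.lb ix.mem iu.mem ix.nb iu.nb e3).le⟩
  have htu : tau ≠ u := by rintro rfl; exact lt_irrefl _ htau
  have e5 : be u < be tau := h.cr.be_lt' iu.mem itau.mem iu.nb itau.nb htu.symm (h.d4 u hu)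
  obtain ⟨z0, hz0, hz0b, hz0m, hz0e⟩ := h.cr.be_min Lf_sub hwm hwb
  obtain ⟨z1, hz1, hz1b, hz1m, hz1e⟩ := h.cr.be_max Lf_sub hwm hwb
  have e6 := hz0m w hwm hwb
  have e7 := hz1m tau htm itau.nb
  have e8 := h.boxB hwB hwb
  exact h.thin.five Lf_sub (by omega) (ext_b h.cr.cf Lf_sub hbm)
    (Lf_p h.cr.cf ix.mem iu.mem hxu) (Lf_q h.cr.cf ix.mem iu.mem hxu) hz0e hz1e
    (nd5 ix.nb.symm iu.nb.symm hz0b.symm hz1b.symm hxu (by rintro rfl; linarith)
      (by rintro rfl; linarith) (by rintro rfl; linarith) (by rintro rfl; linarith)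
      (by rintro rfl; linarith))

/-- step 8: `y0` is on the right of `t u` -/
lemma S1D.y0_right (h : S1D s m P T B C a b c v L R tau hh al be ga) {y0 : ℝ × ℝ}
    (hy0B : y0 ∈ B) (hy0 : ∀ z ∈ Ls T B a al u, z ≠ y0 → z ≠ u → 0 < D s y0 u z)
    (ht : t ∈ T) (hal : al t < al u) : D s t u y0 < 0 := by
  have h1 := hy0 t (mem_Ls.2 (Or.inr (Or.inr ⟨ht, hal.le⟩)))
    (by rintro rfl; exact h.BT hy0B ht) (by rintro rfl; exact lt_irrefl _ hal)
  rw [D_swap13]; linarith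

/-- step 9, `T3` -/
lemma S1D.T3 (h : S1D s m P T B C a b c v L R tau hh al be ga) (hu : u ∈ T)
    (h1 : C.card ≤ rk T al u) (h2 : rk T al u ≤ C.card + 1) (ht : t ∈ T) (t1 : al t < al u)
    (t2 : be t < be u) (t3 : ga t < ga u) (hz : z ∈ P) (hzc : z ≠ c) (hzg : ga u < ga z) :
    0 < D s t u z := by
  obtain ⟨y0, hy0B, hy0b, hy0⟩ := h.ey0 hu h1 h2
  have hyr := h.y0_right hy0B hy0 ht t1
  have it := h.inT ht
  have iu := h.inT hu
  have iy := h.inB hy0B hy0b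
  have htu : t ≠ u := by rintro rfl; exact lt_irrefl _ t1
  by_contra hcon
  have la := h.cr.la it.mem iu.mem it.na iu.na t1
  have lb := h.cr.lb it.mem iu.mem it.nb iu.nb t2
  have rc := h.cr.rc it.mem iu.mem it.nc iu.nc t3
  have hsides := sides_card h.cr.cf it.mem iu.mem htu
  have hPc := h.card
  have hcm : c ∈ Rt s P t u := mem_Rt.2 ⟨h.cr.cf.hc, rc.le⟩
  have hym : y0 ∈ Rt s P t u := mem_Rt.2 ⟨iy.mem, hyr.le⟩
  have hzm : z ∈ Rt s P t u := mem_Rt.2 ⟨hz, not_lt.1 hcon⟩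
  have htm : t ∈ Rt s P t u := mem_Rt.2 ⟨it.mem, by simp⟩
  have hum : u ∈ Rt s P t u := mem_Rt.2 ⟨iu.mem, by simp⟩
  have hlight : (Rt s P t u).card ≤ m := by
    by_contra hc
    obtain ⟨z0, hz0, hz0b, hz0m, hz0e⟩ := h.cr.ga_min Rt_sub htm it.nc
    obtain ⟨z1, hz1, hz1b, hz1m, hz1e⟩ := h.cr.ga_max Rt_sub htm it.nc
    have e1 := hz0m y0 hym iy.nc
    have e2 := hz1m z hzm hzc
    have e3 := (h.B1 y0 hy0B t ht).2
    exact h.thin.five Rt_sub (by omega) (ext_c h.cr.cf Rt_sub hcm)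
      (Rt_p h.cr.cf it.mem iu.mem htu) (Rt_q h.cr.cf it.mem iu.mem htu) hz0e hz1e
      (nd5 it.nc.symm iu.nc.symm hz0b.symm hz1b.symm htu (by rintro rfl; linarith)
        (by rintro rfl; linarith) (by rintro rfl; linarith) (by rintro rfl; linarith)
        (by rintro rfl; linarith))
  have ham : a ∈ Lf s P t u := mem_Lf.2 ⟨h.cr.cf.ha, la.le⟩
  have hbm : b ∈ Lf s P t u := mem_Lf.2 ⟨h.cr.cf.hb, lb.le⟩
  have hno : ∀ z' ∈ Lf s P t u, z' ≠ a → al z' ≤ al u := by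
    intro z' hz' hza'
    by_contra hc
    have hc' := not_le.1 hc
    obtain ⟨w0, hw0, hw0a, hw0m, hw0e⟩ := h.cr.al_max Lf_sub hz' hza'
    have e1 := hw0m z' hz' hza'
    have e2 := h.cr.al_b it.mem it.na it.nb
    exact h.thin.five Lf_sub (by omega) (ext_a h.cr.cf Lf_sub ham) (ext_b h.cr.cf Lf_sub hbm)
      (Lf_p h.cr.cf it.mem iu.mem htu) (Lf_q h.cr.cf it.mem iu.mem htu) hw0e
      (nd5 h.cr.cf.ab it.na.symm iu.na.symm hw0a.symm it.nb.symm iu.nb.symm
        (by rintro rfl; linarith) htu (by rintro rfl; linarith) (by rintro rfl; linarith))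
  have hsub : insert t (insert y0 ((Rs T C a al u).erase a)) ⊆ Rt s P t u := by
    intro w hw
    rcases Finset.mem_insert.1 hw with rfl | hw
    · exact htm
    rcases Finset.mem_insert.1 hw with rfl | hw
    · exact hym
    obtain ⟨hwa, hw⟩ := Finset.mem_erase.1 hw
    by_cases hwu : w = u
    · rw [hwu]; exact hum
    have hwP := h.Rs_sub hw
    refine mem_Rt.2 ⟨hwP, ?_⟩
    by_contra hc
    have h3 := hno w (mem_Lf.2 ⟨hwP, (not_le.1 hc).le⟩) hwa
    rcases mem_Rs.1 hw with k | k | k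
    · exact hwa k
    · have := (h.C1 w k u hu).1
      linarith
    · exact hwu (h.al_inj k.1 hu (le_antisymm h3 k.2))
  have hn1 : y0 ∉ (Rs T C a al u).erase a := by
    intro hmem
    rcases mem_Rs.1 (Finset.mem_of_mem_erase hmem) with k | k | k
    · exact iy.na k
    · exact h.BC hy0B k
    · exact h.BT hy0B k.1
  have hn2 : t ∉ insert y0 ((Rs T C a al u).erase a) := by
    intro hmem
    rcases Finset.mem_insert.1 hmem with k | k
    · rw [k] at ht; exact h.BT hy0B ht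
    · rcases mem_Rs.1 (Finset.mem_of_mem_erase k) with k | k | k
      · exact it.na k
      · exact h.CT k ht
      · linarith [k.2]
  have h4 := Finset.card_le_card hsub
  rw [Finset.card_insert_of_notMem hn2, Finset.card_insert_of_notMem hn1,
    Finset.card_erase_of_mem (mem_Rs.2 (Or.inl rfl))] at h4
  have h5 := h.Rs_card hu
  omega

/-- step 10: `x0` is on the left of `t u` -/
lemma S1D.x0_left (h : S1D s m P T B C a b c v L R tau hh al be ga) (hu : u ∈ T)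
    (h2 : rk T al u ≤ C.card + 1) (hx0 : x0 ∈ C) (hx0c : x0 ≠ c)
    (hx0e : ExtP (Rs T C a al u) x0) (hx0g : ga x0 < ga u) (ht : t ∈ T) (t1 : al u < al t) :
    0 < D s t u x0 := by
  have h3 := h.Rs_right hu h2 (h.inC hx0 hx0c) hx0e (h.C1 x0 hx0 u hu).1 hx0g
    (mem_Rs.2 (Or.inr (Or.inr ⟨ht, t1.le⟩))) (by rintro rfl; exact h.CT hx0 ht)
    (by rintro rfl; exact lt_irrefl _ t1)
  rw [D_swap13]; linarith

/-- step 10, `T4` -/
lemma S1D.T4 (h : S1D s m P T B C a b c v L R tau hh al be ga) (hu : u ∈ T)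
    (h1 : C.card ≤ rk T al u) (h2 : rk T al u ≤ C.card + 1) (hx0 : x0 ∈ C) (hx0c : x0 ≠ c)
    (hx0e : ExtP (Rs T C a al u) x0) (hx0g : ga x0 < ga u) (ht : t ∈ T) (t1 : al u < al t)
    (t2 : be t < be u) (t3 : ga t < ga u) (hz : z ∈ P) (hzb : z ≠ b) (hzg : be u < be z) :
    D s t u z < 0 := by
  have hxl := h.x0_left hu h2 hx0 hx0c hx0e hx0g ht t1
  have it := h.inT ht
  have iu := h.inT hu
  have ix := h.inC hx0 hx0c
  have htu : t ≠ u := by rintro rfl; exact lt_irrefl _ t1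
  by_contra hcon
  have ra := h.cr.ra it.mem iu.mem it.na iu.na t1
  have lb := h.cr.lb it.mem iu.mem it.nb iu.nb t2
  have rc := h.cr.rc it.mem iu.mem it.nc iu.nc t3
  have hsides := sides_card h.cr.cf it.mem iu.mem htu
  have hPc := h.card
  have hbm : b ∈ Lf s P t u := mem_Lf.2 ⟨h.cr.cf.hb, lb.le⟩
  have hxm : x0 ∈ Lf s P t u := mem_Lf.2 ⟨ix.mem, hxl.le⟩
  have hzm : z ∈ Lf s P t u := mem_Lf.2 ⟨hz, not_lt.1 hcon⟩
  have htm : t ∈ Lf s P t u := mem_Lf.2 ⟨it.mem, by simp⟩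
  have hum : u ∈ Lf s P t u := mem_Lf.2 ⟨iu.mem, by simp⟩
  have hlight : (Lf s P t u).card ≤ m := by
    by_contra hc
    obtain ⟨z0, hz0, hz0b, hz0m, hz0e⟩ := h.cr.be_min Lf_sub htm it.nb
    obtain ⟨z1, hz1, hz1b, hz1m, hz1e⟩ := h.cr.be_max Lf_sub htm it.nb
    have e1 := hz0m x0 hxm ix.nb
    have e2 := hz1m z hzm hzb
    have e3 := (h.C1 x0 hx0 t ht).2
    exact h.thin.five Lf_sub (by omega) (ext_b h.cr.cf Lf_sub hbm)
      (Lf_p h.cr.cf it.mem iu.mem htu) (Lf_q h.cr.cf it.mem iu.mem htu) hz0e hz1e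
      (nd5 it.nb.symm iu.nb.symm hz0b.symm hz1b.symm htu (by rintro rfl; linarith)
        (by rintro rfl; linarith) (by rintro rfl; linarith) (by rintro rfl; linarith)
        (by rintro rfl; linarith))
  have ham : a ∈ Rt s P t u := mem_Rt.2 ⟨h.cr.cf.ha, ra.le⟩
  have hcm : c ∈ Rt s P t u := mem_Rt.2 ⟨h.cr.cf.hc, rc.le⟩
  have hno : ∀ z' ∈ Rt s P t u, z' ≠ a → al u ≤ al z' := by
    intro z' hz' hza'
    by_contra hc
    have hc' := not_le.1 hc
    obtain ⟨w0, hw0, hw0a, hw0m, hw0e⟩ := h.cr.al_min Rt_sub hz' hza'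
    have e1 := hw0m z' hz' hza'
    have e2 := h.cr.al_c iu.mem iu.na iu.nc
    exact h.thin.five Rt_sub (by omega) (ext_a h.cr.cf Rt_sub ham) (ext_c h.cr.cf Rt_sub hcm)
      (Rt_p h.cr.cf it.mem iu.mem htu) (Rt_q h.cr.cf it.mem iu.mem htu) hw0e
      (nd5 h.cr.cf.ca.symm it.na.symm iu.na.symm hw0a.symm it.nc.symm iu.nc.symm
        (by rintro rfl; linarith) htu (by rintro rfl; linarith) (by rintro rfl; linarith))
  have hsub : insert t (insert x0 ((Ls T B a al u).erase a)) ⊆ Lf s P t u := by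
    intro w hw
    rcases Finset.mem_insert.1 hw with rfl | hw
    · exact htm
    rcases Finset.mem_insert.1 hw with rfl | hw
    · exact hxm
    obtain ⟨hwa, hw⟩ := Finset.mem_erase.1 hw
    by_cases hwu : w = u
    · rw [hwu]; exact hum
    have hwP := h.Ls_sub hw
    refine mem_Lf.2 ⟨hwP, ?_⟩
    by_contra hc
    have h3 := hno w (mem_Rt.2 ⟨hwP, (not_le.1 hc).le⟩) hwa
    rcases mem_Ls.1 hw with k | k | k
    · exact hwa k
    · have := (h.B1 w k u hu).1
      linarith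
    · exact hwu (h.al_inj k.1 hu (le_antisymm k.2 h3))
  have hn1 : x0 ∉ (Ls T B a al u).erase a := by
    intro hmem
    rcases mem_Ls.1 (Finset.mem_of_mem_erase hmem) with k | k | k
    · exact ix.na k
    · exact h.BC k hx0
    · exact h.CT hx0 k.1
  have hn2 : t ∉ insert x0 ((Ls T B a al u).erase a) := by
    intro hmem
    rcases Finset.mem_insert.1 hmem with k | k
    · rw [k] at ht; exact h.CT hx0 ht
    · rcases mem_Ls.1 (Finset.mem_of_mem_erase k) with k | k | k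
      · exact it.na k
      · exact h.BT k ht
      · linarith [k.2]
  have h4 := Finset.card_le_card hsub
  rw [Finset.card_insert_of_notMem hn2, Finset.card_insert_of_notMem hn1,
    Finset.card_erase_of_mem (mem_Ls.2 (Or.inl rfl))] at h4
  have h5 := h.Ls_card (u := u)
  have h6 := h.rq
  omega

end

end Pool.Agent.G5.S1
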